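import Pool.Agent.Y266.Haf.New
import Pool.Agent.H32R2.KH.Near

/-!
The sum over matchings is the sum over involutions; the bounds on the perfect matching polytope.
-/

set_option autoImplicit false

namespace Pool.Agent.Y266.Haf

open Pool.Agent.H32R2.KH (matchings khaf perfectMatchings Psi J)

theorem mem_kM {V : Type} [Fintype V] [DecidableEq V] {k : ℕ} {f : V → V} : f ∈ kM V k ↔
    (∀ v, f (f v) = v) ∧ (Finset.univ.filter (fun v => f v ≠ v)).card = 2 * k := by
  unfold kM
  rw [Finset.mem_filter]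
  exact ⟨fun h => h.2, fun h => ⟨Finset.mem_univ _, h⟩⟩

section
variable {N : ℕ}

/-- the edges of an involution -/
def Ph (f : Fin N → Fin N) : Finset (Fin N × Fin N) :=
  Finset.univ.filter (fun e => e.1 < e.2 ∧ f e.1 = e.2)

theorem mem_Ph {f : Fin N → Fin N} {e : Fin N × Fin N} : e ∈ Ph f ↔ e.1 < e.2 ∧ f e.1 = e.2 := by
  simp [Ph]

theorem Ph_eq (f : Fin N → Fin N) :
    Ph f = (Finset.univ.filter (fun v => v < f v)).image (fun v => (v, f v)) := by
  ext ⟨a, b⟩
  rw [mem_Ph, Finset.mem_image]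
  constructor
  · rintro ⟨h1, h2⟩
    simp only at h1 h2
    exact ⟨a, by rw [Finset.mem_filter]; exact ⟨Finset.mem_univ _, by rw [h2]; exact h1⟩, by rw [h2]⟩
  · rintro ⟨v, hv, h⟩
    rw [Finset.mem_filter] at hv
    obtain ⟨rfl, rfl⟩ := Prod.mk.inj h
    exact ⟨hv.2, rfl⟩

theorem Ph_inj0 (f : Fin N → Fin N) : Function.Injective (fun v => (v, f v)) :=
  fun _ _ h => (Prod.mk.inj h).1

theorem card_moved {f : Fin N → Fin N} (hf : ∀ v, f (f v) = v) :
    (Finset.univ.filter (fun v => f v ≠ v)).card =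
      2 * (Finset.univ.filter (fun v => v < f v)).card := by
  have hfi : Function.Injective f := fun x y h => by rw [← hf x, h, hf y]
  have h1 : Finset.univ.filter (fun v => f v ≠ v) =
      Finset.univ.filter (fun v => v < f v) ∪
      (Finset.univ.filter (fun v => v < f v)).image f := by
    ext v
    simp only [Finset.mem_filter, Finset.mem_univ, true_and, Finset.mem_union, Finset.mem_image]
    constructor
    · intro h
      rcases lt_trichotomy v (f v) with h2 | h2 | h2
      · exact Or.inl h2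
      · exact absurd h2.symm h
      · exact Or.inr ⟨f v, by rw [hf]; exact h2, hf v⟩
    · rintro (h | ⟨w, h, rfl⟩) h'
      · rw [h'] at h; exact lt_irrefl _ h
      · rw [hf] at h'
        rw [← h'] at h
        exact lt_irrefl _ h
  have h2 : Disjoint (Finset.univ.filter (fun v => v < f v))
      ((Finset.univ.filter (fun v => v < f v)).image f) := by
    rw [Finset.disjoint_left]
    intro v hv hv'
    rw [Finset.mem_filter] at hv
    rw [Finset.mem_image] at hv'
    obtain ⟨w, hw, rfl⟩ := hv'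
    rw [Finset.mem_filter] at hw
    rw [hf] at hv
    exact lt_asymm hv.2 hw.2
  rw [h1, Finset.card_union_of_disjoint h2, Finset.card_image_of_injective _ hfi]
  ring

theorem Ph_mem {k : ℕ} {f : Fin N → Fin N} (hf : f ∈ kM (Fin N) k) : Ph f ∈ matchings N k := by
  obtain ⟨hf1, hf2⟩ := mem_kM.1 hf
  have hfi : Function.Injective f := fun x y h => by rw [← hf1 x, h, hf1 y]
  unfold matchings
  rw [Finset.mem_filter]
  refine ⟨Finset.mem_univ _, ?_, fun e he => (mem_Ph.1 he).1, ?_⟩
  · rw [Ph_eq, Finset.card_image_of_injective _ (Ph_inj0 f)]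
    have := card_moved hf1
    omega
  · intro e he g hg hne
    obtain ⟨he1, he2⟩ := mem_Ph.1 he
    obtain ⟨hg1, hg2⟩ := mem_Ph.1 hg
    refine ⟨fun h => ?_, fun h => ?_, fun h => ?_, fun h => ?_⟩
    · apply hne
      apply Prod.ext h
      rw [← he2, ← hg2, h]
    · have h1 : e.2 = g.1 := by rw [← he2, h, ← hg2, hf1]
      rw [h1, h] at he1
      exact lt_asymm he1 hg1
    · have h1 : e.1 = g.2 := by rw [← hf1 e.1, he2, h, hg2]
      rw [h, h1] at he1
      exact lt_asymm he1 hg1
    · apply hne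
      have h1 : e.1 = g.1 := hfi (by rw [he2, hg2, h])
      exact Prod.ext h1 h

theorem Ph_inj {f g : Fin N → Fin N} (hf : ∀ v, f (f v) = v) (hg : ∀ v, g (g v) = v)
    (h : Ph f = Ph g) : f = g := by
  have key : ∀ {f g : Fin N → Fin N}, (∀ v, f (f v) = v) → (∀ v, g (g v) = v) → Ph f = Ph g →
      ∀ v, f v ≠ v → g v = f v := by
    intro f g hf hg h v hv
    rcases lt_trichotomy v (f v) with h1 | h1 | h1
    · have h2 : (v, f v) ∈ Ph f := mem_Ph.2 ⟨h1, rfl⟩
      rw [h] at h2
      exact (mem_Ph.1 h2).2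
    · exact absurd h1.symm hv
    · have h2 : (f v, v) ∈ Ph f := mem_Ph.2 ⟨h1, hf v⟩
      rw [h] at h2
      have h3 := (mem_Ph.1 h2).2
      simp only at h3
      rw [← h3, hg, h3]
  funext v
  by_cases h1 : f v = v
  · by_cases h2 : g v = v
    · rw [h1, h2]
    · exact key hg hf h.symm v h2
  · exact (key hf hg h v h1).symm

theorem Ph_surj {k : ℕ} {M : Finset (Fin N × Fin N)} (hM : M ∈ matchings N k) :
    ∃ f ∈ kM (Fin N) k, Ph f = M := by
  unfold matchings at hM
  rw [Finset.mem_filter] at hM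
  obtain ⟨_, hcard, hlt, hdis⟩ := hM
  let P : Fin N → Fin N → Prop := fun v w =>
    (v, w) ∈ M ∨ (w, v) ∈ M ∨ (v = w ∧ ∀ u, (v, u) ∉ M ∧ (u, v) ∉ M)
  have hsymm : ∀ v w, P v w → P w v := by
    rintro v w (h | h | ⟨rfl, h⟩)
    · exact Or.inr (Or.inl h)
    · exact Or.inl h
    · exact Or.inr (Or.inr ⟨rfl, h⟩)
  have hex : ∀ v, ∃ w, P v w := by
    intro v
    by_cases h1 : ∃ w, (v, w) ∈ M
    · obtain ⟨w, hw⟩ := h1
      exact ⟨w, Or.inl hw⟩
    · by_cases h2 : ∃ w, (w, v) ∈ M
      · obtain ⟨w, hw⟩ := h2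
        exact ⟨w, Or.inr (Or.inl hw)⟩
      · push Not at h1 h2
        exact ⟨v, Or.inr (Or.inr ⟨rfl, fun u => ⟨h1 u, h2 u⟩⟩)⟩
  have huniq : ∀ v w w', P v w → P v w' → w = w' := by
    intro v w w' h h'
    rcases h with h | h | ⟨rfl, h⟩
    · rcases h' with h' | h' | ⟨rfl, h'⟩
      · by_contra hne
        exact (hdis _ h _ h' (fun hh => hne (Prod.mk.inj hh).2)).1 rfl
      · exfalso
        have h1 := hlt _ h
        have h2 := hlt _ h'
        simp only at h1 h2
        have h3 : ((v, w) : Fin N × Fin N) ≠ (w', v) := by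
          intro hh
          have h4 := (Prod.mk.inj hh).2
          rw [h4] at h1
          exact lt_irrefl _ h1
        exact (hdis _ h _ h' h3).2.1 rfl
      · exact absurd h (h' w).1
    · rcases h' with h' | h' | ⟨rfl, h'⟩
      · exfalso
        have h1 := hlt _ h
        have h2 := hlt _ h'
        simp only at h1 h2
        have h3 : ((w, v) : Fin N × Fin N) ≠ (v, w') := by
          intro hh
          have h4 := (Prod.mk.inj hh).1
          rw [h4] at h1
          exact lt_irrefl _ h1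
        exact (hdis _ h _ h' h3).2.2.1 rfl
      · by_contra hne
        exact (hdis _ h _ h' (fun hh => hne (Prod.mk.inj hh).1)).2.2.2 rfl
      · exact absurd h (h' w).2
    · rcases h' with h' | h' | ⟨rfl, h'⟩
      · exact absurd h' (h w').1
      · exact absurd h' (h w').2
      · rfl
  choose f hf using hex
  have hff : ∀ v, f (f v) = v := fun v => huniq _ _ _ (hf (f v)) (hsymm _ _ (hf v))
  have hPh : Ph f = M := by
    ext ⟨a, b⟩
    rw [mem_Ph]
    constructor
    · rintro ⟨h1, h2⟩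
      simp only at h1 h2
      have h3 := hf a
      rw [h2] at h3
      rcases h3 with h3 | h3 | ⟨rfl, _⟩
      · exact h3
      · exact absurd (hlt _ h3) (lt_asymm h1)
      · exact absurd h1 (lt_irrefl _)
    · intro h
      exact ⟨hlt _ h, huniq _ _ _ (hf a) (Or.inl h)⟩
  refine ⟨f, ?_, hPh⟩
  refine mem_kM.2 ⟨hff, ?_⟩
  rw [card_moved hff, ← hcard, ← hPh, Ph_eq, Finset.card_image_of_injective _ (Ph_inj0 f)]

/-- the sum over matchings is the sum over involutions -/
theorem khaf_eq (k : ℕ) {B : Matrix (Fin N) (Fin N) ℝ} (hB : ∀ i j, B i j = B j i)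
    (hB0 : ∀ i j, 0 ≤ B i j) : khaf k B = hk k B := by
  unfold khaf hk
  symm
  apply Finset.sum_bij (fun f _ => Ph f)
  · intro f hf
    exact Ph_mem hf
  · intro f hf g hg h
    exact Ph_inj (mem_kM.1 hf).1 (mem_kM.1 hg).1 h
  · intro M hM
    obtain ⟨f, hf, h⟩ := Ph_surj hM
    exact ⟨f, hf, h⟩
  · intro f hf
    rw [wi_eq hB hB0 (mem_kM.1 hf).1 (fun v : Fin N => (v : ℕ)) (fun _ _ h => Fin.ext h), Ph_eq,
      Finset.prod_image (fun x _ y _ h => Ph_inj0 f h)]
    rfl

end

/-- the two descriptions of the polytope -/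
theorem Psi_eq (n : ℕ) : Psi n = convexHull ℝ (Gv (Fin (2 * n))) := by
  unfold Psi
  congr 1
  ext A
  unfold perfectMatchings Gv
  constructor
  · rintro ⟨σ, h1, h2, h3⟩
    exact ⟨σ, fun i => ⟨h2 i, h1 i⟩, h3⟩
  · rintro ⟨σ, h1, h3⟩
    exact ⟨σ, fun i => (h1 i).2, fun i => (h1 i).1, h3⟩

/-- the lower bound for all `k` -/
theorem all_k {n k : ℕ} (hn : 1 ≤ n) (hk' : k ≤ n) {B : Matrix (Fin (2 * n)) (Fin (2 * n)) ℝ}
    (hB : B ∈ Psi n) : (n.choose k : ℝ) / (3 * Real.exp 1) ^ k ≤ khaf k B := by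
  obtain ⟨hsym, hnn, _, _⟩ := Pool.Agent.H32R2.KH.Psi_basic hB
  rw [khaf_eq k hsym hnn]
  have hcard : Fintype.card (Fin (2 * n)) = 2 * n := Fintype.card_fin _
  have h1 := hull_sharp hn hcard (Psi_eq n ▸ hB)
  have h2 := newton hcard hsym hnn k hk'
  have he : (0 : ℝ) < 3 * Real.exp 1 := by positivity
  have h3 : ((n.choose k : ℝ) / (3 * Real.exp 1) ^ k) ^ n ≤ (hk k B) ^ n := by
    refine le_trans ?_ h2
    rw [div_pow, div_le_iff₀ (by positivity), mul_assoc]
    apply le_mul_of_one_le_right (by positivity)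
    calc (1 : ℝ) ≤ ((3 * Real.exp 1) ^ n * hk n B) ^ k := one_le_pow₀ h1
      _ = hk n B ^ k * ((3 * Real.exp 1) ^ k) ^ n := by
        rw [mul_pow, ← pow_mul, ← pow_mul, mul_comm n k]; ring
  exact le_of_pow_le_pow_left₀ (by omega) (hk_nonneg k B) h3

theorem khaf_continuous (N k : ℕ) : Continuous (khaf (N := N) k) := by
  unfold khaf
  refine continuous_finsetSum _ fun M _ => continuous_finsetProd _ fun e _ => ?_
  exact continuous_apply_apply e.1 e.2

theorem Psi_compact (n : ℕ) : IsCompact (Psi n) := by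
  unfold Psi
  apply Set.Finite.isCompact_convexHull
  have h : perfectMatchings (2 * n) ⊆ Set.range
      (fun σ : Fin (2 * n) → Fin (2 * n) => (fun i j => if σ i = j then (1 : ℝ) else 0 :
        Matrix (Fin (2 * n)) (Fin (2 * n)) ℝ)) := by
    rintro A ⟨σ, _, _, rfl⟩
    exact ⟨σ, rfl⟩
  exact (Set.finite_range _).subset h

/-- the minimum exists -/
theorem exists_least (n k : ℕ) : IsLeast (khaf k '' Psi n) (sInf (khaf k '' Psi n)) := by
  have h1 : IsCompact (khaf k '' Psi n) := (Psi_compact n).image (khaf_continuous _ k)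
  have h2 : (khaf k '' Psi n).Nonempty := ⟨_, _, Pool.Agent.H32R2.KH.J_mem n, rfl⟩
  exact h1.isLeast_sInf h2

theorem J_le_choose {n k : ℕ} (hn : 1 ≤ n) (hk' : k ≤ n) : khaf k (J n) ≤ n.choose k := by
  rw [Pool.Agent.H32R2.KH.khaf_J n k hk' hn, Pool.Agent.H32R2.KH.val_choose n k hk' hn]
  have hn' : (1 : ℝ) ≤ n := by exact_mod_cast hn
  apply mul_le_of_le_one_right (by positivity)
  apply Finset.prod_le_one
  · intro i hi
    rw [Finset.mem_range] at hi
    have : (i : ℝ) + 1 ≤ n := by exact_mod_cast (by omega : i + 1 ≤ n)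
    apply div_nonneg <;> linarith
  · intro i _
    rw [div_le_one (by linarith)]
    have : (0 : ℝ) ≤ i := by positivity
    linarith

end Pool.Agent.Y266.Haf
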