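import Pool.Agent.Y266.Haf.Ten

/-!
Matching generating functions of nonnegative weights do not vanish off the negative half-line
(Heilmann and Lieb).
-/

set_option autoImplicit false
set_option linter.unusedSectionVars false

namespace Pool.Agent.Y266.Haf

section
variable {V : Type} [Fintype V] [DecidableEq V]

/-- the involutions moving only points of `S` -/
def Inv (S : Finset V) : Finset (V → V) :=
  Finset.univ.filter (fun f => (∀ v, f (f v) = v) ∧ ∀ v, v ∉ S → f v = v)

theorem mem_Inv {S : Finset V} {f : V → V} :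
    f ∈ Inv S ↔ (∀ v, f (f v) = v) ∧ ∀ v, v ∉ S → f v = v := by
  simp [Inv]

/-- complex weights -/
noncomputable def wz (B : Matrix V V ℝ) (z : ℂ) (f : V → V) : ℂ :=
  ∏ v ∈ Finset.univ.filter (fun v => f v ≠ v), (z * (Real.sqrt (B v (f v)) : ℂ))

/-- the generating function of the matchings in `S` -/
noncomputable def FS (B : Matrix V V ℝ) (z : ℂ) (S : Finset V) : ℂ := ∑ f ∈ Inv S, wz B z f

theorem FS_empty (B : Matrix V V ℝ) (z : ℂ) : FS B z ∅ = 1 := by
  have h : Inv (∅ : Finset V) = {id} := by
    ext f
    rw [mem_Inv, Finset.mem_singleton]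
    constructor
    · rintro ⟨_, h⟩
      funext v
      exact h v (Finset.notMem_empty v)
    · rintro rfl
      simp
  unfold FS
  rw [h, Finset.sum_singleton]
  unfold wz
  simp

/-- add the pair `{v, u}` -/
def addp (v u : V) (g : V → V) : V → V := fun w => if w = v then u else if w = u then v else g w

/-- remove the pair `{v, u}` -/
def remp (v u : V) (f : V → V) : V → V := fun w => if w = v then v else if w = u then u else f w

theorem wz_addp {B : Matrix V V ℝ} (hB : ∀ i j, B i j = B j i) (hB0 : ∀ i j, 0 ≤ B i j) (z : ℂ)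
    {v u : V} (hvu : u ≠ v) {g : V → V} (hgv : g v = v) (hgu : g u = u)
    (hg : ∀ w, g (g w) = w) :
    wz B z (addp v u g) = z ^ 2 * (B v u : ℂ) * wz B z g := by
  have h1 : Finset.univ.filter (fun w => addp v u g w ≠ w) =
      insert v (insert u (Finset.univ.filter (fun w => g w ≠ w))) := by
    ext w
    rw [Finset.mem_filter, Finset.mem_insert, Finset.mem_insert, Finset.mem_filter]
    by_cases h2 : w = v
    · simp [addp, h2, hvu]
    · by_cases h3 : w = u
      · simp [addp, h3, hvu, hvu.symm]
      · simp [addp, h2, h3]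
  have hv : v ∉ insert u (Finset.univ.filter (fun w => g w ≠ w)) := by
    simp [hvu.symm, hgv]
  have hu : u ∉ Finset.univ.filter (fun w => g w ≠ w) := by
    simp [hgu]
  unfold wz
  rw [h1, Finset.prod_insert hv, Finset.prod_insert hu]
  have e1 : addp v u g v = u := by simp [addp]
  have e2 : addp v u g u = v := by simp [addp, hvu]
  rw [e1, e2, hB u v]
  have e3 : ∏ w ∈ Finset.univ.filter (fun w => g w ≠ w), (z * (Real.sqrt (B w (addp v u g w)) : ℂ)) =
      ∏ w ∈ Finset.univ.filter (fun w => g w ≠ w), (z * (Real.sqrt (B w (g w)) : ℂ)) := by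
    apply Finset.prod_congr rfl
    intro w hw
    rw [Finset.mem_filter] at hw
    have h2 : w ≠ v := by rintro rfl; exact hw.2 hgv
    have h3 : w ≠ u := by rintro rfl; exact hw.2 hgu
    rw [show addp v u g w = g w by simp [addp, h2, h3]]
  rw [e3]
  have e4 : ((Real.sqrt (B v u) : ℝ) : ℂ) * ((Real.sqrt (B v u) : ℝ) : ℂ) = (B v u : ℂ) := by
    rw [← Complex.ofReal_mul, Real.mul_self_sqrt (hB0 _ _)]
  linear_combination (z ^ 2 * ∏ w ∈ Finset.univ.filter (fun w => g w ≠ w),
    (z * (Real.sqrt (B w (g w)) : ℂ))) * e4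

/-- the recursion -/
theorem FS_rec {B : Matrix V V ℝ} (hB : ∀ i j, B i j = B j i) (hB0 : ∀ i j, 0 ≤ B i j) (z : ℂ)
    {S : Finset V} {v : V} (hv : v ∈ S) :
    FS B z S = FS B z (S.erase v) +
      ∑ u ∈ S.erase v, z ^ 2 * (B v u : ℂ) * FS B z ((S.erase v).erase u) := by
  have hmaps : ∀ f ∈ Inv S, f v ∈ S := by
    intro f hf
    rw [mem_Inv] at hf
    by_contra h
    have h1 := hf.2 _ h
    rw [hf.1 v] at h1
    rw [← h1] at h
    exact h hv
  unfold FS
  rw [← Finset.sum_fiberwise_of_maps_to hmaps, ← Finset.add_sum_erase _ _ hv]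
  congr 1
  · apply Finset.sum_congr _ fun _ _ => rfl
    ext f
    rw [Finset.mem_filter, mem_Inv, mem_Inv]
    constructor
    · rintro ⟨⟨h1, h2⟩, h3⟩
      refine ⟨h1, fun w hw => ?_⟩
      by_cases h4 : w = v
      · rw [h4]; exact h3
      · exact h2 w (fun h5 => hw (Finset.mem_erase.2 ⟨h4, h5⟩))
    · rintro ⟨h1, h2⟩
      exact ⟨⟨h1, fun w hw => h2 w (fun h5 => hw (Finset.mem_of_mem_erase h5))⟩,
        h2 v (Finset.notMem_erase v S)⟩
  · apply Finset.sum_congr rfl
    intro u hu
    have huv : u ≠ v := Finset.ne_of_mem_erase hu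
    have huS : u ∈ S := Finset.mem_of_mem_erase hu
    rw [Finset.mul_sum]
    symm
    apply Finset.sum_nbij' (addp v u) (remp v u)
    · intro g hg
      rw [mem_Inv] at hg
      have hgv : g v = v := hg.2 v (fun h => by simp at h)
      have hgu : g u = u := hg.2 u (fun h => by simp at h)
      rw [Finset.mem_filter, mem_Inv]
      refine ⟨⟨fun w => ?_, fun w hw => ?_⟩, by simp [addp]⟩
      · by_cases h1 : w = v
        · simp [addp, h1, huv]
        · by_cases h2 : w = u
          · simp [addp, h2, huv]
          · have h3 : g w ≠ v := fun h => h1 (by rw [← hg.1 w, h, hgv])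
            have h4 : g w ≠ u := fun h => h2 (by rw [← hg.1 w, h, hgu])
            simp [addp, h1, h2, h3, h4, hg.1]
      · have h1 : w ≠ v := by rintro rfl; exact hw hv
        have h2 : w ≠ u := by rintro rfl; exact hw huS
        rw [show addp v u g w = g w by simp [addp, h1, h2]]
        apply hg.2
        intro h
        exact hw (Finset.mem_of_mem_erase (Finset.mem_of_mem_erase h))
    · intro f hf
      rw [Finset.mem_filter, mem_Inv] at hf
      obtain ⟨⟨h1, h2⟩, h3⟩ := hf
      have h4 : f u = v := by rw [← h3, h1]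
      rw [mem_Inv]
      refine ⟨fun w => ?_, fun w hw => ?_⟩
      · by_cases h5 : w = v
        · simp [remp, h5]
        · by_cases h6 : w = u
          · simp [remp, h6, huv]
          · have h7 : f w ≠ v := fun h => h6 (by rw [← h1 w, h, h3])
            have h8 : f w ≠ u := fun h => h5 (by rw [← h1 w, h, h4])
            simp [remp, h5, h6, h7, h8, h1]
      · by_cases h5 : w = v
        · simp [remp, h5]
        · by_cases h6 : w = u
          · simp [remp, h6, huv]
          · rw [show remp v u f w = f w by simp [remp, h5, h6]]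
            apply h2
            intro h
            exact hw (Finset.mem_erase.2 ⟨h6, Finset.mem_erase.2 ⟨h5, h⟩⟩)
    · intro g hg
      rw [mem_Inv] at hg
      have hgv : g v = v := hg.2 v (fun h => by simp at h)
      have hgu : g u = u := hg.2 u (fun h => by simp at h)
      funext w
      by_cases h1 : w = v
      · simp [remp, h1, hgv]
      · by_cases h2 : w = u
        · simp [remp, h2, huv, hgu]
        · simp [remp, addp, h1, h2]
    · intro f hf
      rw [Finset.mem_filter, mem_Inv] at hf
      obtain ⟨⟨h1, h2⟩, h3⟩ := hf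
      have h4 : f u = v := by rw [← h3, h1]
      funext w
      by_cases h5 : w = v
      · simp [addp, h5, h3]
      · by_cases h6 : w = u
        · simp [addp, h6, huv, h4]
        · simp [remp, addp, h5, h6]
    · intro g hg
      rw [mem_Inv] at hg
      have hgv : g v = v := hg.2 v (fun h => by simp at h)
      have hgu : g u = u := hg.2 u (fun h => by simp at h)
      rw [wz_addp hB hB0 z huv hgv hgu hg.1]

/-- the generating functions do not vanish in the right half-plane -/
theorem FS_ne {B : Matrix V V ℝ} (hB : ∀ i j, B i j = B j i) (hB0 : ∀ i j, 0 ≤ B i j) {z : ℂ}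
    (hz : 0 < z.re) : ∀ (m : ℕ) (S : Finset V), S.card = m →
      FS B z S ≠ 0 ∧ ∀ v ∈ S, 0 < (FS B z S / (z * FS B z (S.erase v))).re := by
  have hz0 : z ≠ 0 := by rintro rfl; simp at hz
  intro m
  induction m with
  | zero =>
    intro S hS
    rw [Finset.card_eq_zero] at hS
    subst hS
    exact ⟨by rw [FS_empty]; exact one_ne_zero, fun v hv => absurd hv (Finset.notMem_empty v)⟩
  | succ m ih =>
    intro S hS
    have hre : ∀ v ∈ S, 0 < (FS B z S / (z * FS B z (S.erase v))).re := by
      intro v hv
      obtain ⟨h1, h2⟩ := ih (S.erase v) (by rw [Finset.card_erase_of_mem hv]; omega)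
      have h3 : FS B z S / (z * FS B z (S.erase v)) = z⁻¹ +
          ∑ u ∈ S.erase v, (B v u : ℂ) * (FS B z (S.erase v) / (z * FS B z ((S.erase v).erase u)))⁻¹ := by
        rw [FS_rec hB hB0 z hv, add_div, Finset.sum_div]
        congr 1
        · field_simp
        · apply Finset.sum_congr rfl
          intro u hu
          rw [inv_div]
          field_simp
      rw [h3, Complex.add_re, Complex.re_sum]
      apply add_pos_of_pos_of_nonneg
      · rw [Complex.inv_re]
        exact div_pos hz (Complex.normSq_pos.2 hz0)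
      · apply Finset.sum_nonneg
        intro u hu
        rw [Complex.re_ofReal_mul]
        apply mul_nonneg (hB0 _ _)
        rw [Complex.inv_re]
        exact div_nonneg (h2 u hu).le (Complex.normSq_nonneg _)
    refine ⟨?_, hre⟩
    obtain ⟨v, hv⟩ : ∃ v, v ∈ S := Finset.card_pos.1 (by omega)
    intro h
    have := hre v hv
    rw [h] at this
    simp at this

/-- the number of moved points of an involution is even -/
theorem even_moved {f : V → V} (hf : ∀ v, f (f v) = v) :
    ∃ k, (Finset.univ.filter (fun v => f v ≠ v)).card = 2 * k := by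
  obtain ⟨en, hen⟩ : ∃ en : V → ℕ, Function.Injective en :=
    ⟨fun v => (Fintype.equivFin V v : ℕ), fun x y h => (Fintype.equivFin V).injective (Fin.ext h)⟩
  have hfi : Function.Injective f := fun x y h => by rw [← hf x, h, hf y]
  refine ⟨(Finset.univ.filter (fun v => en v < en (f v))).card, ?_⟩
  have h1 : Finset.univ.filter (fun v => f v ≠ v) =
      Finset.univ.filter (fun v => en v < en (f v)) ∪
      (Finset.univ.filter (fun v => en v < en (f v))).image f := by
    ext v
    simp only [Finset.mem_filter, Finset.mem_univ, true_and, Finset.mem_union, Finset.mem_image]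
    constructor
    · intro h
      rcases lt_trichotomy (en v) (en (f v)) with h2 | h2 | h2
      · exact Or.inl h2
      · exact absurd (hen h2).symm h
      · exact Or.inr ⟨f v, by rw [hf]; exact h2, hf v⟩
    · rintro (h | ⟨w, h, rfl⟩) h'
      · rw [h'] at h; exact lt_irrefl _ h
      · rw [hf] at h'
        rw [← h'] at h
        exact lt_irrefl _ h
  have h2 : Disjoint (Finset.univ.filter (fun v => en v < en (f v)))
      ((Finset.univ.filter (fun v => en v < en (f v))).image f) := by
    rw [Finset.disjoint_left]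
    intro v hv hv'
    rw [Finset.mem_filter] at hv
    rw [Finset.mem_image] at hv'
    obtain ⟨w, hw, rfl⟩ := hv'
    rw [Finset.mem_filter] at hw
    rw [hf] at hv
    omega
  rw [h1, Finset.card_union_of_disjoint h2, Finset.card_image_of_injective _ hfi]
  ring

theorem wz_eq (B : Matrix V V ℝ) (z : ℂ) (f : V → V) :
    wz B z f = z ^ (Finset.univ.filter (fun v => f v ≠ v)).card * (wi B f : ℂ) := by
  unfold wz wi
  rw [Finset.prod_mul_distrib, Finset.prod_const, Complex.ofReal_prod]

theorem FS_univ {n : ℕ} (hV : Fintype.card V = 2 * n) (B : Matrix V V ℝ) (z : ℂ) :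
    FS B z Finset.univ = ∑ k ∈ Finset.range (n + 1), (hk k B : ℂ) * (z ^ 2) ^ k := by
  unfold FS
  have hmaps : ∀ f ∈ Inv (Finset.univ : Finset V),
      (Finset.univ.filter (fun v => f v ≠ v)).card / 2 ∈ Finset.range (n + 1) := by
    intro f _
    rw [Finset.mem_range]
    have h1 : (Finset.univ.filter (fun v => f v ≠ v)).card ≤ 2 * n := by
      rw [← hV, ← Finset.card_univ]
      exact Finset.card_le_card (Finset.filter_subset _ _)
    omega
  rw [← Finset.sum_fiberwise_of_maps_to hmaps]
  apply Finset.sum_congr rfl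
  intro k _
  unfold hk
  rw [Complex.ofReal_sum, Finset.sum_mul]
  have h1 : (Inv (Finset.univ : Finset V)).filter
      (fun f => (Finset.univ.filter (fun v => f v ≠ v)).card / 2 = k) = kM V k := by
    ext f
    rw [Finset.mem_filter, mem_Inv]
    unfold kM
    rw [Finset.mem_filter]
    constructor
    · rintro ⟨⟨h1, _⟩, h2⟩
      obtain ⟨l, hl⟩ := even_moved h1
      exact ⟨Finset.mem_univ _, h1, by omega⟩
    · rintro ⟨_, h1, h2⟩
      exact ⟨⟨h1, fun v hv => absurd (Finset.mem_univ v) hv⟩, by omega⟩
  rw [h1]
  apply Finset.sum_congr rfl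
  intro f hf
  unfold kM at hf
  rw [Finset.mem_filter] at hf
  rw [wz_eq, hf.2.2, pow_mul]
  ring

end

end Pool.Agent.Y266.Haf
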