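import Pool.Agent.Y266.Haf.Low
import Pool.Agent.H249R2.PM.Final

/-!
Matchings as involutions, the bound for the hafnian of the points of the perfect matching polytope.
-/

set_option autoImplicit false
set_option linter.unusedSectionVars false

namespace Pool.Agent.Y266.Haf

open Pool.Agent.H249R2.PM

section
variable {V : Type} [Fintype V] [DecidableEq V]

/-- the weight of an involution -/
noncomputable def wi (B : Matrix V V ℝ) (f : V → V) : ℝ :=
  ∏ v ∈ Finset.univ.filter (fun v => f v ≠ v), Real.sqrt (B v (f v))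

theorem wi_nonneg (B : Matrix V V ℝ) (f : V → V) : 0 ≤ wi B f :=
  Finset.prod_nonneg fun _ _ => Real.sqrt_nonneg _

/-- for a nonnegative symmetric matrix the weight of an involution is the product of the entries of
its two-element orbits -/
theorem wi_eq {B : Matrix V V ℝ} (hB : ∀ i j, B i j = B j i) (hB0 : ∀ i j, 0 ≤ B i j)
    {f : V → V} (hf : ∀ v, f (f v) = v) (en : V → ℕ) (hen : Function.Injective en) :
    wi B f = ∏ v ∈ Finset.univ.filter (fun v => en v < en (f v)), B v (f v) := by
  have hfi : Function.Injective f := fun x y h => by rw [← hf x, h, hf y]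
  unfold wi
  have h1 : Finset.univ.filter (fun v => f v ≠ v) =
      Finset.univ.filter (fun v => en v < en (f v)) ∪
      (Finset.univ.filter (fun v => en v < en (f v))).image f := by
    ext v
    simp only [Finset.mem_filter, Finset.mem_univ, true_and, Finset.mem_union, Finset.mem_image]
    constructor
    · intro h
      rcases lt_trichotomy (en v) (en (f v)) with h2 | h2 | h2
      · exact Or.inl h2
      · exact absurd (hen h2).symm h
      · exact Or.inr ⟨f v, by rw [hf]; exact h2, hf v⟩
    · rintro (h | ⟨w, h, rfl⟩) h'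
      · rw [h'] at h; exact lt_irrefl _ h
      · rw [hf] at h'
        rw [← h'] at h
        exact lt_irrefl _ h
  have h2 : Disjoint (Finset.univ.filter (fun v => en v < en (f v)))
      ((Finset.univ.filter (fun v => en v < en (f v))).image f) := by
    rw [Finset.disjoint_left]
    intro v hv hv'
    rw [Finset.mem_filter] at hv
    rw [Finset.mem_image] at hv'
    obtain ⟨w, hw, rfl⟩ := hv'
    rw [Finset.mem_filter] at hw
    rw [hf] at hv
    omega
  rw [h1, Finset.prod_union h2, Finset.prod_image (fun x _ y _ h => hfi h), ← Finset.prod_mul_distrib]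
  apply Finset.prod_congr rfl
  intro v _
  rw [hf, hB (f v) v, Real.mul_self_sqrt (hB0 _ _)]

/-- the `k`-matchings as involutions -/
def kM (V : Type) [Fintype V] [DecidableEq V] (k : ℕ) : Finset (V → V) :=
  Finset.univ.filter (fun f => (∀ v, f (f v) = v) ∧ (Finset.univ.filter (fun v => f v ≠ v)).card = 2 * k)

/-- the `k`-hafnian -/
noncomputable def hk (k : ℕ) (B : Matrix V V ℝ) : ℝ := ∑ f ∈ kM V k, wi B f

/-- the adjacency matrices of perfect matchings -/
def Gv (V : Type) [Fintype V] [DecidableEq V] : Set (Matrix V V ℝ) :=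
  {M | ∃ f : V → V, (∀ i, f i ≠ i ∧ f (f i) = i) ∧
    M = Matrix.of (fun i j => if f i = j then (1 : ℝ) else 0)}

/-- perfect matchings -/
theorem mem_kM_top {n : ℕ} (hV : Fintype.card V = 2 * n) {f : V → V} :
    f ∈ kM V n ↔ ∀ i, f i ≠ i ∧ f (f i) = i := by
  unfold kM
  rw [Finset.mem_filter]
  constructor
  · rintro ⟨_, h1, h2⟩ i
    refine ⟨?_, h1 i⟩
    rw [← hV, ← Finset.card_univ] at h2
    have h3 := (Finset.card_eq_iff_eq_univ _).1 (h2.trans Finset.card_univ)
    have h4 : i ∈ Finset.univ.filter (fun v => f v ≠ v) := by rw [h3]; simp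
    simpa using h4
  · intro h
    refine ⟨Finset.mem_univ _, fun v => (h v).2, ?_⟩
    rw [← hV, ← Finset.card_univ]
    congr 1
    rw [Finset.filter_true_of_mem]
    intro v _
    exact (h v).1

end

/-- every perfect matching comes from an involution -/
theorem exists_invol {n : ℕ} {M : Finset (EE n)} (hM : IsPM ea eb M) :
    ∃ f : VV n → VV n, (∀ i, f i ≠ i ∧ f (f i) = i) ∧ Mf f = M := by
  classical
  have h : ∀ v : VV n, ∃ e ∈ M, (ea e = v ∨ eb e = v) ∧ ∀ e' ∈ M, (ea e' = v ∨ eb e' = v) → e' = e := by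
    intro v
    have h1 := hM.deg v
    rw [Finset.card_eq_one] at h1
    obtain ⟨e, he⟩ := h1
    have h2 : e ∈ M.filter (Cr ea eb {v}) := by rw [he]; simp
    rw [Finset.mem_filter, Cr_singleton] at h2
    refine ⟨e, h2.1, by tauto, ?_⟩
    intro e' he' h3
    have h4 : e' ∈ M.filter (Cr ea eb {v}) := by
      rw [Finset.mem_filter, Cr_singleton]
      refine ⟨he', ?_⟩
      have := ea_ne_eb e'
      intro h5
      rcases h3 with h3 | h3
      · exact this (h3.trans (h5.1 h3).symm)
      · exact this ((h5.2 h3).trans h3.symm)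
    rw [he, Finset.mem_singleton] at h4
    exact h4
  choose g hgM hgv hgu using h
  let f : VV n → VV n := fun v => if ea (g v) = v then eb (g v) else ea (g v)
  have hf1 : ∀ v, (ea (g v) = v ∧ f v = eb (g v)) ∨ (eb (g v) = v ∧ f v = ea (g v)) := by
    intro v
    by_cases h1 : ea (g v) = v
    · left; exact ⟨h1, by simp [f, h1]⟩
    · right
      exact ⟨(hgv v).resolve_left h1, by simp [f, h1]⟩
  have hgf : ∀ v, g (f v) = g v := by
    intro v
    symm
    apply hgu (f v) (g v) (hgM v)
    rcases hf1 v with ⟨_, h2⟩ | ⟨_, h2⟩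
    · right; exact h2.symm
    · left; exact h2.symm
  have hinv : ∀ i, f i ≠ i ∧ f (f i) = i := by
    intro v
    have hne := ea_ne_eb (g v)
    rcases hf1 v with ⟨h1, h2⟩ | ⟨h1, h2⟩
    · refine ⟨fun h => hne (by rw [h1, ← h2, h]), ?_⟩
      rcases hf1 (f v) with ⟨h3, h4⟩ | ⟨h3, h4⟩
      · rw [hgf] at h3
        exact absurd (h3.trans h2) hne
      · rw [h4, hgf, h1]
    · refine ⟨fun h => hne (by rw [h1, ← h2, h]), ?_⟩
      rcases hf1 (f v) with ⟨h3, h4⟩ | ⟨h3, h4⟩
      · rw [h4, hgf, h1]
      · rw [hgf] at h3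
        exact absurd (h2.symm.trans h3.symm) hne
  refine ⟨f, hinv, ?_⟩
  ext e
  simp only [Mf, Finset.mem_filter, Finset.mem_univ, true_and]
  constructor
  · intro h1
    have h2 : g (ea e) = e := by
      rcases hf1 (ea e) with ⟨h3, h4⟩ | ⟨h3, h4⟩
      · apply ends_unique
        left
        exact ⟨h3, by rw [← h4, h1]⟩
      · apply ends_unique
        right
        exact ⟨by rw [← h4, h1], h3⟩
    rw [← h2]
    exact hgM _
  · intro he
    have h2 : g (ea e) = e := (hgu (ea e) e he (Or.inl rfl)).symm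
    rcases hf1 (ea e) with ⟨h3, h4⟩ | ⟨h3, h4⟩
    · rw [h4, h2]
    · rw [h2] at h3
      exact absurd h3.symm (ea_ne_eb e)

theorem enc_injective {n : ℕ} : Function.Injective (enc : VV n → ℕ) := fun _ _ h => enc_inj h

theorem prod_Mf {n : ℕ} {B : Matrix (VV n) (VV n) ℝ} (hB : ∀ i j, B i j = B j i)
    (hB0 : ∀ i j, 0 ≤ B i j) {f : VV n → VV n} (hf : ∀ i, f i ≠ i ∧ f (f i) = i) :
    ∏ e ∈ Mf f, B (ea e) (eb e) = wi B f := by
  rw [wi_eq hB hB0 (fun v => (hf v).2) enc enc_injective]
  apply Finset.prod_nbij' (fun e => ea e) (fun v => if h : enc v < enc (f v) then ⟨(v, f v), h⟩ else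
    mkE v (f v) (hf v).1.symm)
  · intro e he
    simp only [Mf, Finset.mem_filter, Finset.mem_univ, true_and] at he ⊢
    rw [he]
    exact e.2
  · intro v hv
    simp only [Finset.mem_filter, Finset.mem_univ, true_and] at hv
    simp only [Mf, Finset.mem_filter, Finset.mem_univ, true_and]
    rw [dif_pos hv]
    rfl
  · intro e he
    simp only [Mf, Finset.mem_filter, Finset.mem_univ, true_and] at he
    have h1 : enc (ea e) < enc (f (ea e)) := by rw [he]; exact e.2
    rw [dif_pos h1]
    apply Subtype.ext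
    apply Prod.ext
    · rfl
    · exact he
  · intro v hv
    simp only [Finset.mem_filter, Finset.mem_univ, true_and] at hv
    rw [dif_pos hv]
    rfl
  · intro e he
    simp only [Mf, Finset.mem_filter, Finset.mem_univ, true_and] at he
    rw [he]

open Classical in
theorem sum_le_hk {n : ℕ} {B : Matrix (VV n) (VV n) ℝ} (hB : ∀ i j, B i j = B j i)
    (hB0 : ∀ i j, 0 ≤ B i j) :
    ∑ M ∈ Finset.univ.filter (fun M : Finset (EE n) => IsPM ea eb M), ∏ e ∈ M, B (ea e) (eb e) ≤
      hk n B := by
  have hV : Fintype.card (VV n) = 2 * n := by simp [mul_comm]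
  have h : ∀ M : Finset (EE n), ∃ f : VV n → VV n, IsPM ea eb M →
      (∀ i, f i ≠ i ∧ f (f i) = i) ∧ Mf f = M := by
    intro M
    by_cases hM : IsPM ea eb M
    · obtain ⟨f, hf⟩ := exists_invol hM
      exact ⟨f, fun _ => hf⟩
    · exact ⟨id, fun h => absurd h hM⟩
  choose F hF using h
  have hinj : Set.InjOn F (Finset.univ.filter (fun M : Finset (EE n) => IsPM ea eb M) :
      Finset (Finset (EE n))) := by
    intro M hM M' hM' hMM
    rw [Finset.mem_coe, Finset.mem_filter] at hM hM'
    rw [← (hF M hM.2).2, ← (hF M' hM'.2).2, hMM]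
  calc ∑ M ∈ Finset.univ.filter (fun M : Finset (EE n) => IsPM ea eb M), ∏ e ∈ M, B (ea e) (eb e)
      = ∑ M ∈ Finset.univ.filter (fun M : Finset (EE n) => IsPM ea eb M), wi B (F M) := by
        apply Finset.sum_congr rfl
        intro M hM
        rw [Finset.mem_filter] at hM
        obtain ⟨h1, h2⟩ := hF M hM.2
        rw [← prod_Mf hB hB0 h1, h2]
    _ = ∑ f ∈ (Finset.univ.filter (fun M : Finset (EE n) => IsPM ea eb M)).image F, wi B f := by
        rw [Finset.sum_image hinj]
    _ ≤ ∑ f ∈ kM (VV n) n, wi B f := by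
        apply Finset.sum_le_sum_of_subset_of_nonneg
        · intro f hf
          rw [Finset.mem_image] at hf
          obtain ⟨M, hM, rfl⟩ := hf
          rw [Finset.mem_filter] at hM
          exact (mem_kM_top hV).2 (hF M hM.2).1
        · intro f _ _
          exact wi_nonneg B f
    _ = hk n B := rfl

theorem pos_case {n : ℕ} (hn : 1 ≤ n) {B : Matrix (VV n) (VV n) ℝ} (hB : Good B)
    (hpos : ∀ e : EE n, 0 < B (ea e) (eb e)) :
    2 * (Real.exp (-1)) ^ n ≤ 3 * n * (3 ^ n * hk n B) := by
  obtain ⟨θ, hθ, hgen⟩ := exists_gen (EE n)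
  have h1 : ((⟨0, by omega⟩, 0) : VV n) ≠ (⟨0, by omega⟩, 1) := by simp
  obtain ⟨f, hf, _⟩ := exists_inv (ea (mkE _ _ h1)) (eb (mkE _ _ h1)) (ea_ne_eb _)
  have hpm := Mf_isPM hf
  have h2 := haf_lower3 hn (by simp [mul_comm]) ea_ne_eb comp_EE hpm.fr
    (β := fun e => B (ea e) (eb e)) ⟨hpos, hB.hull⟩ ⟨_, hpm⟩ hθ hgen
  refine h2.trans ?_
  gcongr
  exact sum_le_hk hB.symm hB.nonneg

theorem hk_continuous {V : Type} [Fintype V] [DecidableEq V] (k : ℕ) :
    Continuous (hk (V := V) k) := by
  unfold hk wi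
  refine continuous_finsetSum _ fun f _ => continuous_finsetProd _ fun v _ => ?_
  exact Real.continuous_sqrt.comp (continuous_apply_apply v (f v))

/-- the bound on the whole polytope -/
theorem hull_VV {n : ℕ} (hn : 1 ≤ n) {B : Matrix (VV n) (VV n) ℝ}
    (hB : B ∈ convexHull ℝ (Gn n)) :
    2 * (Real.exp (-1)) ^ n ≤ 3 * n * (3 ^ n * hk n B) := by
  obtain ⟨J, hJ, hJ0⟩ := exists_interior hn
  let H : ℝ → ℝ := fun t => 3 * n * (3 ^ n * hk n ((1 - t) • B + t • J))
  have hH : Continuous H := by
    unfold H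
    have := hk_continuous (V := VV n) n
    fun_prop
  have h0 : H 0 = 3 * n * (3 ^ n * hk n B) := by
    simp [H]
  rw [← h0]
  have hev : ∀ᶠ t in nhdsWithin (0 : ℝ) (Set.Ioi 0), 2 * (Real.exp (-1)) ^ n ≤ H t := by
    filter_upwards [ev_small 1 1 one_pos, self_mem_nhdsWithin] with t ht1 ht0
    have ht0' : 0 < t := ht0
    have h1 : (1 - t) • B + t • J ∈ convexHull ℝ (Gn n) :=
      (convex_convexHull ℝ (Gn n)) hB hJ (by linarith) ht0'.le (by ring)
    have h2 := good_of_mem h1
    exact pos_case hn h2 (fun e => by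
      have h4 := (good_of_mem hB).nonneg (ea e) (eb e)
      have h5 := hJ0 e
      simp only [Matrix.add_apply, Matrix.smul_apply, smul_eq_mul]
      have h6 : 0 < 1 - t := by linarith
      positivity)
  have htend : Filter.Tendsto H (nhdsWithin (0 : ℝ) (Set.Ioi 0)) (nhds (H 0)) :=
    (hH.tendsto 0).mono_left nhdsWithin_le_nhds
  exact ge_of_tendsto htend hev

end Pool.Agent.Y266.Haf
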