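import Pool.Agent.H249R2.PM.Main

/-!
The rank bound of `H249R2.PM.Rank` with the sharp size of laminar families of odd sets: a laminar
family of odd subsets of a set with `m` elements has at most `(3 m - 1) / 2` members. The proofs of
`rank_bound3` and `tight_card3` are those of `rank_bound` and `tight_card`.
-/

set_option autoImplicit false
set_option linter.unusedSectionVars false

namespace Pool.Agent.Y266.Haf

open Pool.Agent.H249R2.PM

/-- laminar families of odd sets with at least three elements -/
theorem laminar_big {α : Type} [DecidableEq α] :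
    ∀ (m : ℕ) (N : Finset (Finset α)) (X : Finset α), N.card = m →
      (∀ S ∈ N, S ⊆ X ∧ Odd S.card ∧ 3 ≤ S.card) →
      (∀ S ∈ N, ∀ T ∈ N, Disjoint S T ∨ S ⊆ T ∨ T ⊆ S) → 2 * m ≤ X.card - 1 := by
  intro m
  induction m with
  | zero => intro N X _ _ _; omega
  | succ m ih =>
    intro N X hm h1 h2
    have hne : N.Nonempty := by
      rw [← Finset.card_pos]; omega
    obtain ⟨S, hS, hmin⟩ := Finset.exists_min_image N Finset.card hne
    obtain ⟨hSX, hSo, hS3⟩ := h1 S hS
    obtain ⟨x, hx⟩ : ∃ x, x ∈ S := Finset.card_pos.1 (by omega)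
    obtain ⟨y, hy⟩ : ∃ y, y ∈ S.erase x := Finset.card_pos.1 (by
      rw [Finset.card_erase_of_mem hx]; omega)
    obtain ⟨z, hz⟩ : ∃ z, z ∈ (S.erase x).erase y := Finset.card_pos.1 (by
      rw [Finset.card_erase_of_mem hy, Finset.card_erase_of_mem hx]; omega)
    have hyS := Finset.mem_of_mem_erase hy
    have hyx : y ≠ x := Finset.ne_of_mem_erase hy
    have hzy : z ≠ y := Finset.ne_of_mem_erase hz
    have hzx : z ≠ x := Finset.ne_of_mem_erase (Finset.mem_of_mem_erase hz)
    have hzS : z ∈ S := Finset.mem_of_mem_erase (Finset.mem_of_mem_erase hz)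
    obtain ⟨c, hc⟩ : ∃ c : Finset α → Finset α, c = fun T => (T.erase x).erase y := ⟨_, rfl⟩
    -- the other members
    have hoth : ∀ T ∈ N.erase S, (Disjoint S T ∧ c T = T) ∨ (S ⊆ T ∧ (c T).card + 2 = T.card ∧
        S.card + 2 ≤ T.card ∧ z ∈ c T) := by
      intro T hT
      rw [Finset.mem_erase] at hT
      have hTo := (h1 T hT.2).2.1
      rcases h2 S hS T hT.2 with h | h | h
      · left
        refine ⟨h, ?_⟩
        rw [hc]
        have hxT : x ∉ T := Finset.disjoint_left.1 h hx
        have hyT : y ∉ T := Finset.disjoint_left.1 h hyS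
        simp only
        rw [Finset.erase_eq_of_notMem hxT, Finset.erase_eq_of_notMem hyT]
      · right
        have hxT := h hx
        have hyT := h hyS
        have hlt : S.card < T.card := Finset.card_lt_card (Finset.ssubset_iff_subset_ne.2
          ⟨h, fun h' => hT.1 h'.symm⟩)
        obtain ⟨k, hk⟩ := hSo
        obtain ⟨l, hl⟩ := hTo
        refine ⟨h, ?_, by omega, ?_⟩
        · rw [hc]
          simp only
          rw [Finset.card_erase_of_mem (Finset.mem_erase.2 ⟨hyx, hyT⟩),
            Finset.card_erase_of_mem hxT]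
          omega
        · rw [hc]
          exact Finset.mem_erase.2 ⟨hzy, Finset.mem_erase.2 ⟨hzx, h hzS⟩⟩
      · exfalso
        have h3 := hmin T hT.2
        have h4 : T = S := Finset.eq_of_subset_of_card_le h h3
        exact hT.1 h4
    have hinj : Set.InjOn c (N.erase S : Finset (Finset α)) := by
      intro T hT T' hT' h
      rw [Finset.mem_coe] at hT hT'
      rcases hoth T hT with ⟨ha, hb⟩ | ⟨ha, _, _, hb⟩ <;>
        rcases hoth T' hT' with ⟨ha', hb'⟩ | ⟨ha', _, _, hb'⟩
      · rw [hb, hb'] at h; exact h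
      · exfalso
        rw [h] at hb
        rw [hb] at hb'
        exact Finset.disjoint_left.1 ha hzS hb'
      · exfalso
        rw [← h] at hb'
        rw [hb'] at hb
        exact Finset.disjoint_left.1 ha' hzS hb
      · rw [hc] at h
        simp only at h
        have e1 : T = insert x (insert y ((T.erase x).erase y)) := by
          rw [Finset.insert_erase (Finset.mem_erase.2 ⟨hyx, ha hyS⟩), Finset.insert_erase (ha hx)]
        have e2 : T' = insert x (insert y ((T'.erase x).erase y)) := by
          rw [Finset.insert_erase (Finset.mem_erase.2 ⟨hyx, ha' hyS⟩), Finset.insert_erase (ha' hx)]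
        rw [e1, e2, h]
    have key := ih ((N.erase S).image c) ((X.erase x).erase y) (by
        rw [Finset.card_image_of_injOn hinj, Finset.card_erase_of_mem hS]; omega) (by
        intro T hT
        rw [Finset.mem_image] at hT
        obtain ⟨T', hT', rfl⟩ := hT
        have hT'N := (Finset.mem_erase.1 hT').2
        obtain ⟨q1, q2, q3⟩ := h1 T' hT'N
        refine ⟨?_, ?_, ?_⟩
        · rw [hc]
          exact Finset.erase_subset_erase _ (Finset.erase_subset_erase _ q1)
        · rcases hoth T' hT' with ⟨_, hb⟩ | ⟨_, hb, hb2, _⟩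
          · rw [hb]; exact q2
          · obtain ⟨l, hl⟩ := q2
            exact ⟨l - 1, by omega⟩
        · rcases hoth T' hT' with ⟨_, hb⟩ | ⟨_, hb, hb2, _⟩
          · rw [hb]; exact q3
          · omega) (by
        intro T hT T' hT'
        rw [Finset.mem_image] at hT hT'
        obtain ⟨A, hA, rfl⟩ := hT
        obtain ⟨B, hB, rfl⟩ := hT'
        rcases h2 A (Finset.mem_erase.1 hA).2 B (Finset.mem_erase.1 hB).2 with h | h | h
        · left
          rw [hc]
          exact (h.mono_left ((Finset.erase_subset _ _).trans (Finset.erase_subset _ _))).mono_right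
            ((Finset.erase_subset _ _).trans (Finset.erase_subset _ _))
        · right; left
          rw [hc]
          exact Finset.erase_subset_erase _ (Finset.erase_subset_erase _ h)
        · right; right
          rw [hc]
          exact Finset.erase_subset_erase _ (Finset.erase_subset_erase _ h))
    have hXc : ((X.erase x).erase y).card + 2 = X.card := by
      have hxX := hSX hx
      have hyX := hSX hyS
      have h3 : 3 ≤ X.card := hS3.trans (Finset.card_le_card hSX)
      rw [Finset.card_erase_of_mem (Finset.mem_erase.2 ⟨hyx, hyX⟩), Finset.card_erase_of_mem hxX]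
      omega
    have h3 : 3 ≤ X.card := hS3.trans (Finset.card_le_card hSX)
    rcases Nat.eq_zero_or_pos m with hm0 | hm0
    · omega
    · omega

/-- laminar families of odd sets -/
theorem laminar_odd {α : Type} [DecidableEq α] (L : Finset (Finset α)) (X : Finset α)
    (hX : X.Nonempty) (h1 : ∀ S ∈ L, S ⊆ X ∧ Odd S.card)
    (h2 : ∀ S ∈ L, ∀ T ∈ L, Disjoint S T ∨ S ⊆ T ∨ T ⊆ S) : 2 * L.card + 1 ≤ 3 * X.card := by
  have hX' := Finset.card_pos.2 hX
  have hA : (L.filter (fun S => S.card = 1)).card ≤ X.card := by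
    calc (L.filter (fun S => S.card = 1)).card ≤ (X.image (fun x => ({x} : Finset α))).card := by
          apply Finset.card_le_card
          intro S hS
          rw [Finset.mem_filter] at hS
          obtain ⟨x, hx⟩ := Finset.card_eq_one.1 hS.2
          rw [Finset.mem_image]
          refine ⟨x, ?_, hx.symm⟩
          apply (h1 S hS.1).1
          rw [hx]; simp
      _ ≤ X.card := Finset.card_image_le
  have hB := laminar_big (L.filter (fun S => ¬ S.card = 1)).card
    (L.filter (fun S => ¬ S.card = 1)) X rfl (by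
      intro S hS
      rw [Finset.mem_filter] at hS
      refine ⟨(h1 S hS.1).1, (h1 S hS.1).2, ?_⟩
      obtain ⟨k, hk⟩ := (h1 S hS.1).2
      have := hS.2
      omega) (fun S hS T hT => h2 S (Finset.mem_filter.1 hS).1 T (Finset.mem_filter.1 hT).1)
  have hC := Finset.card_filter_add_card_filter_not (s := L) (fun S => S.card = 1)
  omega

variable {V E : Type} [Fintype V] [DecidableEq V] [Fintype E] [DecidableEq E]

/-- the rank bound: a Pareto-minimal cost vector is a combination of few cut vectors -/
theorem rank_bound3 (hV : Even (Fintype.card V)) {a b : E → V} (hl : ∀ e, a e ≠ b e)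
    (hcomp : ∀ p q : V, p ≠ q → ∃ e, (a e = p ∧ b e = q) ∨ (a e = q ∧ b e = p)) (r : V)
    {x0 : E → ℝ} (hx0 : Fr a b x0) {w : E → ℝ} {F : ℝ}
    (hF : ∀ M, IsPM a b M → F ≤ ∑ e ∈ M, w e)
    (hmin : ∀ w' : E → ℝ, (∀ e, w' e ≤ w e) → (∀ M, IsPM a b M → F ≤ ∑ e ∈ M, w' e) → w' = w) :
    ∃ (L : Finset (Finset V)) (u : Finset V → ℝ), 2 * L.card + 4 ≤ 3 * Fintype.card V ∧
      ∀ e, w e = ∑ T ∈ L, u T * ci a b T e := by
  classical
  obtain ⟨u, hu, huw', huF⟩ := strong hV hl r hx0 hF
  have huw : ∀ e, wv a b r u e = w e := by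
    have := hmin (wv a b r u) huw' (fun M hM => huF.trans (weak hu hM))
    intro e
    rw [this]
  let L0 : Finset (OddT r) := Finset.univ.filter (fun T => ¬ Nt T.1 ∨ u T ≠ 0)
  have hpos : ∀ T ∈ L0, Nt T.1 → 0 < u T := by
    intro T hT hN
    rw [Finset.mem_filter] at hT
    have h1 : u T ≠ 0 := by tauto
    exact lt_of_le_of_ne (hu T hN) (Ne.symm h1)
  refine ⟨L0.image Subtype.val, fun T => if h : Odd T.card ∧ r ∉ T then u ⟨T, h⟩ else 0, ?_, ?_⟩
  · have hcr : ((Finset.univ : Finset V).erase r).card + 1 = Fintype.card V := by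
      rw [Finset.card_erase_of_mem (Finset.mem_univ r), Finset.card_univ]
      have := Fintype.card_pos_iff.2 ⟨r⟩
      omega
    have hodd : Odd ((Finset.univ : Finset V).erase r).card := by
      obtain ⟨k, hk⟩ := hV
      have := Fintype.card_pos_iff.2 ⟨r⟩
      exact ⟨k - 1, by omega⟩
    suffices h : 2 * (L0.image Subtype.val).card + 1 ≤ 3 * ((Finset.univ : Finset V).erase r).card by
      omega
    apply laminar_odd
    · exact Finset.card_pos.1 hodd.pos
    · intro S hS
      rw [Finset.mem_image] at hS
      obtain ⟨T, _, rfl⟩ := hS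
      refine ⟨fun v hv => Finset.mem_erase.2 ⟨?_, Finset.mem_univ v⟩, T.2.1⟩
      rintro rfl
      exact T.2.2 hv
    · intro S' hS' T' hT'
      rw [Finset.mem_image] at hS' hT'
      obtain ⟨S, hS, rfl⟩ := hS'
      obtain ⟨T, hT, rfl⟩ := hT'
      -- trivial sets cross nothing
      have triv : ∀ S T : OddT r, ¬ Nt S.1 → Disjoint S.1 T.1 ∨ S.1 ⊆ T.1 ∨ T.1 ⊆ S.1 := by
        intro S T hN
        unfold Nt at hN
        by_cases h1 : S.1.card = 1
        · obtain ⟨v, hv⟩ := Finset.card_eq_one.1 h1
          rw [hv]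
          by_cases hvT : v ∈ T.1
          · right; left
            exact Finset.singleton_subset_iff.2 hvT
          · left
            exact Finset.disjoint_singleton_left.2 hvT
        · have h2 : S.1.card + 1 = Fintype.card V := by
            by_contra h
            exact hN ⟨h1, h⟩
          have h3 : S.1ᶜ = {r} := by
            have h4 : S.1ᶜ.card = 1 := by
              rw [Finset.card_compl]; omega
            obtain ⟨v, hv⟩ := Finset.card_eq_one.1 h4
            have h5 : r ∈ S.1ᶜ := Finset.mem_compl.2 S.2.2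
            rw [hv, Finset.mem_singleton] at h5
            rw [hv, h5]
          right; right
          intro z hz
          by_contra hcon
          have h5 : z ∈ S.1ᶜ := Finset.mem_compl.2 hcon
          rw [h3, Finset.mem_singleton] at h5
          rw [h5] at hz
          exact T.2.2 hz
      by_cases hNS : Nt S.1
      swap
      · exact triv S T hNS
      by_cases hNT : Nt T.1
      swap
      · rcases triv T S hNT with h | h | h
        · exact Or.inl h.symm
        · exact Or.inr (Or.inr h)
        · exact Or.inr (Or.inl h)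
      by_contra hcon
      push Not at hcon
      obtain ⟨hc1, hc2, hc3⟩ := hcon
      have hST : S ≠ T := by
        rintro rfl
        exact hc2 (Finset.Subset.refl _)
      have hS0 := hpos S hS hNS
      have hT0 := hpos T hT hNT
      rw [Finset.not_disjoint_iff] at hc1
      obtain ⟨z, hz1, hz2⟩ := hc1
      rw [Finset.not_subset] at hc2 hc3
      obtain ⟨p, hp1, hp2⟩ := hc2
      obtain ⟨q, hq1, hq2⟩ := hc3
      have hcard : (S.1 ∩ T.1).card + (S.1 ∪ T.1).card = S.1.card + T.1.card := by
        rw [add_comm, Finset.card_union_add_card_inter]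
      rcases Nat.even_or_odd (S.1 ∩ T.1).card with hpar | hpar
      · -- even intersection
        have hA : Odd (S.1 \ T.1).card := by
          have h1 := Finset.card_sdiff_add_card_inter S.1 T.1
          obtain ⟨k, hk⟩ := hpar
          obtain ⟨l, hl'⟩ := S.2.1
          exact ⟨l - k, by omega⟩
        have hB : Odd (T.1 \ S.1).card := by
          have h1 := Finset.card_sdiff_add_card_inter T.1 S.1
          rw [Finset.inter_comm] at h1
          obtain ⟨k, hk⟩ := hpar
          obtain ⟨l, hl'⟩ := T.2.1
          exact ⟨l - k, by omega⟩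
        have hzr : z ≠ r := by
          rintro rfl
          exact S.2.2 hz1
        obtain ⟨e0, he0⟩ := hcomp z r hzr
        refine no_step hmin hu huw huF (S := S) (T := T)
          (A := ⟨S.1 \ T.1, hA, fun h => S.2.2 (Finset.mem_sdiff.1 h).1⟩)
          (B := ⟨T.1 \ S.1, hB, fun h => T.2.2 (Finset.mem_sdiff.1 h).1⟩) hST hS0 hT0 ?_ e0 ?_
        · intro e
          simp only [ci, Cr, Finset.mem_sdiff]
          by_cases h1 : a e ∈ S.1 <;> by_cases h2 : a e ∈ T.1 <;> by_cases h3 : b e ∈ S.1 <;>
            by_cases h4 : b e ∈ T.1 <;> simp [h1, h2, h3, h4]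
        · have hrS := S.2.2
          have hrT := T.2.2
          rcases he0 with ⟨h1, h2⟩ | ⟨h1, h2⟩ <;>
            simp [ci, Cr, h1, h2, hz1, hz2, hrS, hrT]
      · have hB : Odd (S.1 ∪ T.1).card := by
          obtain ⟨k, hk⟩ := hpar
          obtain ⟨l, hl'⟩ := S.2.1
          obtain ⟨m, hm⟩ := T.2.1
          exact ⟨l + m - k, by omega⟩
        have hpq : p ≠ q := by
          rintro rfl
          exact hp2 hq1
        obtain ⟨e0, he0⟩ := hcomp p q hpq
        refine no_step hmin hu huw huF (S := S) (T := T)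
          (A := ⟨S.1 ∩ T.1, hpar, fun h => S.2.2 (Finset.mem_inter.1 h).1⟩)
          (B := ⟨S.1 ∪ T.1, hB, fun h => by
            rcases Finset.mem_union.1 h with h | h
            · exact S.2.2 h
            · exact T.2.2 h⟩) hST hS0 hT0 ?_ e0 ?_
        · intro e
          simp only [ci, Cr, Finset.mem_inter, Finset.mem_union]
          by_cases h1 : a e ∈ S.1 <;> by_cases h2 : a e ∈ T.1 <;> by_cases h3 : b e ∈ S.1 <;>
            by_cases h4 : b e ∈ T.1 <;> simp [h1, h2, h3, h4]
        · rcases he0 with ⟨h1, h2⟩ | ⟨h1, h2⟩ <;>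
            simp [ci, Cr, h1, h2, hp1, hp2, hq1, hq2]
  · intro e
    rw [← huw e]
    rw [Finset.sum_image (fun x _ y _ h => Subtype.ext h)]
    unfold wv
    have h1 : ∀ T : OddT r, (if h : Odd T.1.card ∧ r ∉ T.1 then u ⟨T.1, h⟩ else 0) = u T := by
      intro T
      rw [dif_pos T.2]
    simp only [h1]
    symm
    apply Finset.sum_subset (Finset.subset_univ L0)
    intro T _ hT
    rw [Finset.mem_filter] at hT
    have : u T = 0 := by
      by_contra h
      exact hT ⟨Finset.mem_univ _, Or.inr h⟩
    rw [this, zero_mul]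

theorem tight_card3 (hV : Even (Fintype.card V)) {a b : E → V} (hl : ∀ e, a e ≠ b e)
    (hcomp : ∀ p q : V, p ≠ q → ∃ e, (a e = p ∧ b e = q) ∨ (a e = q ∧ b e = p)) (r : V)
    {x0 : E → ℝ} (hx0 : Fr a b x0) {β : E → ℝ} (hβ : Wt a b β) {c : E → ℝ}
    (hgen : ∀ q : E → ℚ, ∑ e, (q e : ℝ) * c e = 0 → q = 0) :
    2 * (Finset.univ.filter (fun e => sel a b c e = c e)).card + 4 ≤ 3 * Fintype.card V := by
  obtain ⟨L, u, hL, hu⟩ := rank_bound3 hV hl hcomp r hx0 (w := sel a b c) (F := Fm a b c)
    (sel_mem hβ c).2 (sel_pareto hβ c)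
  suffices h : (Finset.univ.filter (fun e => sel a b c e = c e)).card ≤ L.card by omega
  by_contra hcon
  push Not at hcon
  obtain ⟨q, hq0, hqB, hqL⟩ := exists_relation a b _ L hcon
  apply hq0
  apply hgen
  have h1 : ∀ e, (q e : ℝ) * c e = (q e : ℝ) * sel a b c e := by
    intro e
    by_cases he : e ∈ Finset.univ.filter (fun e => sel a b c e = c e)
    · rw [(Finset.mem_filter.1 he).2]
    · rw [hqB e he]
      simp
  rw [Finset.sum_congr rfl (fun e _ => h1 e)]
  simp only [hu, Finset.mul_sum]
  rw [Finset.sum_comm]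
  apply Finset.sum_eq_zero
  intro T hT
  have h2 := hqL T hT
  have h3 : ∑ e, (q e : ℝ) * (u T * ci a b T e) = u T * ∑ e, (q e : ℝ) * ci a b T e := by
    rw [Finset.mul_sum]
    apply Finset.sum_congr rfl
    intro e _
    ring
  rw [h3, h2, mul_zero]


end Pool.Agent.Y266.Haf
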