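import Pool.Agent.Y266.Haf.Lam

/-!
The random cost argument of `H249R2.PM.Main` on a fine grid: the weighted number of perfect matchings
is at least `(2 / (3 n)) (3 e) ^ (-n)`.
-/

set_option autoImplicit false
set_option linter.unusedSectionVars false

open MeasureTheory ENNReal

namespace Pool.Agent.Y266.Haf

open Pool.Agent.H249R2.PM

variable {V E : Type} [Fintype V] [DecidableEq V] [Fintype E] [DecidableEq E]

theorem memoryless3 {a b : E → V} {β : E → ℝ} (hβ : Wt a b β) (hex : ∃ M, IsPM a b M) (θ : E → ℝ)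
    {δ : ℝ} (hδ : 0 < δ) (e : E) :
    ∫⁻ k, (if 0 < sl a b θ k e then 1 else 0) ∂(Measure.pi fun e => geo (δ * β e)) ≤
      ∫⁻ k, ENNReal.ofReal (δ * β e) * sl a b θ k e ∂(Measure.pi fun e => geo (δ * β e)) := by
  have : ∀ e, IsProbabilityMeasure (geo (δ * β e)) := fun e => geo_prob (mul_pos hδ (hβ.pos e))
  apply lintegral_le_of_lmarginal_le {e} Measurable.of_discrete Measurable.of_discrete
  intro k
  rw [lmarginal_singleton, lmarginal_singleton]
  exact line_ineq (mul_pos hδ (hβ.pos e)) (fun j => sl a b θ (Function.update k e j) e)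
    (fun j₁ h j hj => sl_line hβ hex θ k e j₁ h j hj)

/-- expected minimum cost -/
theorem expected3 {n : ℕ} (hn : Fintype.card V = 2 * n) {a b : E → V} (hl : ∀ e, a e ≠ b e)
    (hcomp : ∀ p q : V, p ≠ q → ∃ e, (a e = p ∧ b e = q) ∨ (a e = q ∧ b e = p)) (r : V)
    {x0 : E → ℝ} (hx0 : Fr a b x0) {β : E → ℝ} (hβ : Wt a b β) (hex : ∃ M, IsPM a b M)
    {θ : E → ℝ} (hθ : ∀ e, 0 < θ e ∧ θ e < 1)
    (hgen : ∀ (q : E → ℚ) (q0 : ℚ), ∑ e, (q e : ℝ) * θ e + q0 = 0 → q = 0)
    {δ : ℝ} (hδ : 0 < δ) :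
    ENNReal.ofReal δ * ∫⁻ k, ENNReal.ofReal (Fm a b (cst θ k)) ∂(Measure.pi fun e => geo (δ * β e)) ≤
      ENNReal.ofReal (δ * n) + (3 * n - 2 : ℕ) := by
  have hpos : ∀ e, 0 < δ * β e := fun e => mul_pos hδ (hβ.pos e)
  have hpr : ∀ e, IsProbabilityMeasure (geo (δ * β e)) := fun e => geo_prob (hpos e)
  obtain ⟨μ, hμ⟩ : ∃ μ : Measure (E → ℕ), μ = Measure.pi fun e => geo (δ * β e) := ⟨_, rfl⟩
  have hprμ : IsProbabilityMeasure μ := by rw [hμ]; infer_instance
  -- number of tight edges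
  have htight : ∀ k : E → ℕ, (Fintype.card E : ℝ≥0∞) ≤
      ∑ e, (if 0 < sl a b θ k e then (1 : ℝ≥0∞) else 0) + (3 * n - 2 : ℕ) := by
    intro k
    have h1 := tight_card3 (by rw [hn]; exact even_two_mul n) hl hcomp r hx0 hβ (c := cst θ k)
      (by
        intro q hq
        apply hgen q (∑ e, q e * k e)
        rw [← hq]
        push_cast
        rw [← Finset.sum_add_distrib]
        apply Finset.sum_congr rfl
        intro e _
        unfold cst
        ring)
    have h2 : (Finset.univ.filter (fun e => sel a b (cst θ k) e = cst θ k e)).card +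
        (Finset.univ.filter (fun e => 0 < sl a b θ k e)).card = Fintype.card E := by
      rw [← Finset.card_univ, ← Finset.card_filter_add_card_filter_not
        (s := (Finset.univ : Finset E)) (fun e => sel a b (cst θ k) e = cst θ k e)]
      congr 2
      ext e
      simp only [Finset.mem_filter, Finset.mem_univ, true_and]
      rw [sl_pos]
      have := (sel_mem hβ (cst θ k)).1 e
      constructor
      · intro h; exact h.ne
      · intro h; exact lt_of_le_of_ne this h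
    have h3 : Fintype.card E ≤ (Finset.univ.filter (fun e => 0 < sl a b θ k e)).card + (3 * n - 2) := by
      rw [hn] at h1
      omega
    have h4 : (((Finset.univ.filter (fun e => 0 < sl a b θ k e)).card : ℕ) : ℝ≥0∞) =
        ∑ e, (if 0 < sl a b θ k e then (1 : ℝ≥0∞) else 0) := by
      rw [Finset.card_filter]
      push_cast
      rfl
    rw [← h4]
    exact_mod_cast h3
  have hJ : (Fintype.card E : ℝ≥0∞) ≤
      ∑ e, ∫⁻ k, (if 0 < sl a b θ k e then (1 : ℝ≥0∞) else 0) ∂μ + (3 * n - 2 : ℕ) := by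
    calc (Fintype.card E : ℝ≥0∞) = ∫⁻ _, (Fintype.card E : ℝ≥0∞) ∂μ := by simp
      _ ≤ ∫⁻ k, (∑ e, (if 0 < sl a b θ k e then (1 : ℝ≥0∞) else 0) + (3 * n - 2 : ℕ)) ∂μ :=
          lintegral_mono htight
      _ = _ := by
          rw [lintegral_add_right _ measurable_const, lintegral_const, measure_univ, mul_one,
            lintegral_finsetSum _ (fun e _ => Measurable.of_discrete)]
  have hfin : ∑ e, ∫⁻ k, (if 0 < sl a b θ k e then (1 : ℝ≥0∞) else 0) ∂μ ≠ ⊤ := by
    apply ne_of_lt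
    rw [ENNReal.sum_lt_top]
    intro e _
    calc ∫⁻ k, (if 0 < sl a b θ k e then (1 : ℝ≥0∞) else 0) ∂μ ≤ ∫⁻ _, 1 ∂μ := by
          apply lintegral_mono
          intro k
          dsimp only
          split_ifs
          · exact le_rfl
          · exact bot_le
      _ = 1 := by simp
      _ < ⊤ := ENNReal.one_lt_top
  have hmean : ∀ e, ENNReal.ofReal (δ * β e) * ∫⁻ k, (k e : ℝ≥0∞) ∂μ = 1 := by
    intro e
    have h1 : ∫⁻ k, (k e : ℝ≥0∞) ∂μ = ∫⁻ j, (j : ℝ≥0∞) ∂(geo (δ * β e)) := by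
      rw [hμ]
      exact (measurePreserving_eval (fun e => geo (δ * β e)) e).lintegral_comp
        (f := fun j : ℕ => (j : ℝ≥0∞)) Measurable.of_discrete
    rw [h1, lintegral_geo, tsum_gw_nat (hpos e), ← ENNReal.ofReal_mul (hpos e).le,
      mul_one_div_cancel (hpos e).ne', ENNReal.ofReal_one]
  have hmul : ∀ e, ENNReal.ofReal (δ * β e) = ENNReal.ofReal δ * ENNReal.ofReal (β e) :=
    fun e => ENNReal.ofReal_mul hδ.le
  have hmain : ENNReal.ofReal δ * ∫⁻ k, ENNReal.ofReal (Fm a b (cst θ k)) ∂μ +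
      ∑ e, ∫⁻ k, (if 0 < sl a b θ k e then (1 : ℝ≥0∞) else 0) ∂μ ≤
      ENNReal.ofReal (δ * n) + Fintype.card E := by
    calc ENNReal.ofReal δ * ∫⁻ k, ENNReal.ofReal (Fm a b (cst θ k)) ∂μ +
        ∑ e, ∫⁻ k, (if 0 < sl a b θ k e then (1 : ℝ≥0∞) else 0) ∂μ
        ≤ ENNReal.ofReal δ * ∫⁻ k, ENNReal.ofReal (Fm a b (cst θ k)) ∂μ +
          ∑ e, ∫⁻ k, ENNReal.ofReal (δ * β e) * sl a b θ k e ∂μ := by
          refine add_le_add le_rfl (Finset.sum_le_sum fun e _ => ?_)
          rw [hμ]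
          exact memoryless3 hβ hex θ hδ e
      _ = ENNReal.ofReal δ * ∫⁻ k, (ENNReal.ofReal (Fm a b (cst θ k)) +
          ∑ e, ENNReal.ofReal (β e) * sl a b θ k e) ∂μ := by
          rw [lintegral_add_right _ Measurable.of_discrete,
            lintegral_finsetSum _ (fun e _ => Measurable.of_discrete), mul_add, Finset.mul_sum]
          congr 1
          apply Finset.sum_congr rfl
          intro e _
          rw [lintegral_const_mul _ Measurable.of_discrete, lintegral_const_mul _ Measurable.of_discrete,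
            hmul, mul_assoc]
      _ ≤ ENNReal.ofReal δ * ∫⁻ k, (ENNReal.ofReal (∑ e, β e) +
            ∑ e, ENNReal.ofReal (β e) * (k e : ℝ≥0∞)) ∂μ := by
          exact mul_le_mul' le_rfl (lintegral_mono (pointwise hβ hex hθ))
      _ = ENNReal.ofReal (δ * ∑ e, β e) + ∑ e, ENNReal.ofReal (δ * β e) * ∫⁻ k, (k e : ℝ≥0∞) ∂μ := by
          rw [lintegral_add_right _ Measurable.of_discrete,
            lintegral_finsetSum _ (fun e _ => Measurable.of_discrete), lintegral_const,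
            measure_univ, mul_one, mul_add, Finset.mul_sum, ENNReal.ofReal_mul hδ.le]
          congr 1
          apply Finset.sum_congr rfl
          intro e _
          rw [lintegral_const_mul _ Measurable.of_discrete, hmul, mul_assoc]
      _ ≤ ENNReal.ofReal (δ * n) + Fintype.card E := by
          rw [Finset.sum_congr rfl (fun e _ => hmean e)]
          gcongr
          · exact sum_beta hβ hn
          · simp
  have hfinal : ENNReal.ofReal δ * ∫⁻ k, ENNReal.ofReal (Fm a b (cst θ k)) ∂μ +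
      ∑ e, ∫⁻ k, (if 0 < sl a b θ k e then (1 : ℝ≥0∞) else 0) ∂μ ≤
      (ENNReal.ofReal (δ * n) + (3 * n - 2 : ℕ)) +
      ∑ e, ∫⁻ k, (if 0 < sl a b θ k e then (1 : ℝ≥0∞) else 0) ∂μ := by
    calc _ ≤ ENNReal.ofReal (δ * n) + Fintype.card E := hmain
      _ ≤ ENNReal.ofReal (δ * n) +
          (∑ e, ∫⁻ k, (if 0 < sl a b θ k e then (1 : ℝ≥0∞) else 0) ∂μ + (3 * n - 2 : ℕ)) := by gcongr
      _ = _ := by ring
  rw [← hμ]
  exact (ENNReal.add_le_add_iff_right hfin).1 hfinal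

theorem mgf3 {β s : ℝ} (hβ : 0 < β) (hs0 : 0 ≤ s) (hs : s < 1) :
    ∫⁻ j : ℕ, ENNReal.ofReal (s ^ j) ∂(geo β) ≤ ENNReal.ofReal (β / (1 - s)) := by
  rw [lintegral_geo, tsum_geom hβ hs0 (by linarith)]
  apply ENNReal.ofReal_le_ofReal
  apply div_le_div_of_nonneg_left hβ.le (by linarith) (by linarith)

open Classical in
/-- the bound on a grid of mesh `1 / N` -/
theorem grid {n : ℕ} (hn1 : 1 ≤ n) (hn : Fintype.card V = 2 * n) {a b : E → V}
    (hl : ∀ e, a e ≠ b e)
    (hcomp : ∀ p q : V, p ≠ q → ∃ e, (a e = p ∧ b e = q) ∨ (a e = q ∧ b e = p))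
    {x0 : E → ℝ} (hx0 : Fr a b x0) {β : E → ℝ} (hβ : Wt a b β) (hex : ∃ M, IsPM a b M)
    {θ : E → ℝ} (hθ : ∀ e, 0 < θ e ∧ θ e < 1)
    (hgen : ∀ (q : E → ℚ) (q0 : ℚ), ∑ e, (q e : ℝ) * θ e + q0 = 0 → q = 0)
    {N : ℕ} (hN : 1 ≤ N) :
    (2 - n / N : ℝ) * ((1 - 1 / (3 * N : ℝ)) ^ (3 * N)) ^ n ≤ 3 * n * (3 ^ n *
      ∑ M ∈ Finset.univ.filter (fun M : Finset E => IsPM a b M), ∏ e ∈ M, β e) := by
  have hNr : (1 : ℝ) ≤ N := by exact_mod_cast hN
  have hN0 : (0 : ℝ) < N := by linarith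
  have hn0 : (0 : ℝ) < n := by exact_mod_cast hn1
  obtain ⟨δ, hδe⟩ : ∃ δ : ℝ, δ = 1 / N := ⟨_, rfl⟩
  have hδ : 0 < δ := by rw [hδe]; positivity
  obtain ⟨s, hse⟩ : ∃ s : ℝ, s = 1 - 1 / (3 * N) := ⟨_, rfl⟩
  have hs1 : s < 1 := by rw [hse]; have : 0 < 1 / (3 * (N : ℝ)) := by positivity
                         linarith
  have hs0 : 0 < s := by
    rw [hse]
    have : 1 / (3 * (N : ℝ)) ≤ 1 / 3 := by
      apply one_div_le_one_div_of_le (by norm_num); linarith
    linarith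
  have hδs : δ / (1 - s) = 3 := by
    rw [hδe, hse]; field_simp; ring
  have hpr : ∀ e, IsProbabilityMeasure (geo (δ * β e)) := fun e => geo_prob (mul_pos hδ (hβ.pos e))
  obtain ⟨μ, hμ⟩ : ∃ μ : Measure (E → ℕ), μ = Measure.pi fun e => geo (δ * β e) := ⟨_, rfl⟩
  have hprμ : IsProbabilityMeasure μ := by rw [hμ]; infer_instance
  have hr : Nonempty V := by
    rw [← Fintype.card_pos_iff, hn]; omega
  obtain ⟨r⟩ := hr
  have hE := expected3 hn hl hcomp r hx0 hβ hex hθ hgen hδ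
  rw [← hμ] at hE
  obtain ⟨T, hT⟩ : ∃ T : ℕ, T = 3 * n * N := ⟨_, rfl⟩
  obtain ⟨A, hA⟩ : ∃ A : Set (E → ℕ), A = {k | ENNReal.ofReal (Fm a b (cst θ k)) < T} := ⟨_, rfl⟩
  obtain ⟨B, hB⟩ : ∃ B : Set (E → ℕ), B = {k | (T : ℝ≥0∞) ≤ ENNReal.ofReal (Fm a b (cst θ k))} :=
    ⟨_, rfl⟩
  have hAf : μ A ≠ ⊤ := measure_ne_top μ A
  have hBf : μ B ≠ ⊤ := measure_ne_top μ B
  -- Markov
  have hMk : 3 * n * (μ B).toReal ≤ n / N + (3 * n - 2) := by
    have h1 := mul_meas_ge_le_lintegral (μ := μ)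
      (f := fun k => ENNReal.ofReal (Fm a b (cst θ k))) Measurable.of_discrete (T : ℝ≥0∞)
    rw [← hB] at h1
    have h2 : ENNReal.ofReal δ * ((T : ℝ≥0∞) * μ B) ≤ ENNReal.ofReal (δ * n) + (3 * n - 2 : ℕ) :=
      (mul_le_mul' le_rfl h1).trans hE
    have h3 := ENNReal.toReal_mono (by
      exact ENNReal.add_ne_top.2 ⟨ENNReal.ofReal_ne_top, ENNReal.natCast_ne_top _⟩) h2
    rw [ENNReal.toReal_mul, ENNReal.toReal_mul, ENNReal.toReal_ofReal hδ.le,
      ENNReal.toReal_add ENNReal.ofReal_ne_top (ENNReal.natCast_ne_top _),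
      ENNReal.toReal_ofReal (by positivity), ENNReal.toReal_natCast, ENNReal.toReal_natCast] at h3
    have h4 : ((3 * n - 2 : ℕ) : ℝ) = 3 * n - 2 := by
      rw [Nat.cast_sub (by omega)]; push_cast; ring
    rw [h4, hT, hδe] at h3
    push_cast at h3
    have h5 : 1 / (N : ℝ) * (3 * n * N * (μ B).toReal) = 3 * n * (μ B).toReal := by
      field_simp
    rw [h5] at h3
    have h6 : 1 / (N : ℝ) * n = n / N := by ring
    linarith
  have hAB : 1 ≤ (μ A).toReal + (μ B).toReal := by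
    rw [← ENNReal.toReal_add hAf hBf]
    have h1 : (1 : ℝ≥0∞) ≤ μ A + μ B := by
      calc (1 : ℝ≥0∞) = μ Set.univ := measure_univ.symm
        _ ≤ μ (A ∪ B) := by
            apply measure_mono
            intro k _
            rw [hA, hB]
            exact lt_or_ge (ENNReal.ofReal (Fm a b (cst θ k))) (T : ℝ≥0∞)
        _ ≤ _ := measure_union_le _ _
    have h2 := ENNReal.toReal_mono (ENNReal.add_ne_top.2 ⟨hAf, hBf⟩) h1
    simpa using h2
  obtain ⟨P, hP⟩ : ∃ P : Finset (Finset E), P = Finset.univ.filter (fun M => IsPM a b M) := ⟨_, rfl⟩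
  have hind : ∀ k : E → ℕ, A.indicator (fun _ => (1 : ℝ≥0∞)) k ≤
      ∑ M ∈ P, ENNReal.ofReal ((s⁻¹) ^ T) * ∏ e ∈ M, ENNReal.ofReal (s ^ (k e)) := by
    intro k
    by_cases hk : k ∈ A
    · obtain ⟨M, hM, hMc⟩ := exists_Fm (cst θ k) hex
      have h1 : Fm a b (cst θ k) < T := by
        rw [hA, Set.mem_ofPred_eq, ← ENNReal.ofReal_natCast] at hk
        exact (ENNReal.ofReal_lt_ofReal_iff_of_nonneg
          (Fm_nonneg hex (fun e => by unfold cst; have := (hθ e).1; positivity))).1 hk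
      have h2 : ∑ e ∈ M, k e ≤ T := by
        have h3 : ((∑ e ∈ M, k e : ℕ) : ℝ) ≤ (T : ℝ) := by
          push_cast
          calc ∑ e ∈ M, (k e : ℝ) ≤ ∑ e ∈ M, cst θ k e := by
                apply Finset.sum_le_sum
                intro e _
                unfold cst
                linarith [(hθ e).1]
            _ ≤ T := by rw [hMc]; exact h1.le
        exact_mod_cast h3
      have h3 : (1 : ℝ≥0∞) ≤ ENNReal.ofReal ((s⁻¹) ^ T) * ∏ e ∈ M, ENNReal.ofReal (s ^ (k e)) := by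
        rw [← ENNReal.ofReal_prod_of_nonneg (fun e _ => by positivity),
          Finset.prod_pow_eq_pow_sum, ← ENNReal.ofReal_mul (by positivity), ← ENNReal.ofReal_one]
        apply ENNReal.ofReal_le_ofReal
        calc (1 : ℝ) = (s⁻¹) ^ T * s ^ T := by
              rw [← mul_pow, inv_mul_cancel₀ hs0.ne', one_pow]
          _ ≤ (s⁻¹) ^ T * s ^ (∑ e ∈ M, k e) := by
              apply mul_le_mul_of_nonneg_left _ (by positivity)
              exact pow_le_pow_of_le_one hs0.le hs1.le h2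
      rw [Set.indicator_of_mem hk]
      refine h3.trans ?_
      exact Finset.single_le_sum (f := fun M => ENNReal.ofReal ((s⁻¹) ^ T) *
        ∏ e ∈ M, ENNReal.ofReal (s ^ (k e))) (fun _ _ => bot_le)
        (by rw [hP]; simp [hM])
    · rw [Set.indicator_of_notMem hk]
      exact bot_le
  have hint : μ A ≤ ∑ M ∈ P, ENNReal.ofReal ((s⁻¹) ^ T) * ∏ e ∈ M, ENNReal.ofReal (3 * β e) := by
    calc μ A = ∫⁻ k, A.indicator (fun _ => (1 : ℝ≥0∞)) k ∂μ := by
          rw [lintegral_indicator (MeasurableSet.of_discrete), lintegral_const,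
            Measure.restrict_apply_univ, one_mul]
      _ ≤ ∫⁻ k, ∑ M ∈ P, ENNReal.ofReal ((s⁻¹) ^ T) *
            ∏ e ∈ M, ENNReal.ofReal (s ^ (k e)) ∂μ := lintegral_mono hind
      _ = ∑ M ∈ P, ENNReal.ofReal ((s⁻¹) ^ T) *
            ∏ e ∈ M, ∫⁻ k : E → ℕ, ENNReal.ofReal (s ^ (k e)) ∂μ := by
          rw [lintegral_finsetSum _ (fun e _ => Measurable.of_discrete)]
          apply Finset.sum_congr rfl
          intro M _
          rw [lintegral_const_mul _ Measurable.of_discrete]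
          congr 1
          apply ProbabilityTheory.lintegral_prod_eq_prod_lintegral_of_indepFun M
            (fun e (k : E → ℕ) => ENNReal.ofReal (s ^ (k e)))
          · rw [hμ]
            exact ProbabilityTheory.iIndepFun_pi
              (X := fun (_ : E) (j : ℕ) => ENNReal.ofReal (s ^ j))
              (fun e => Measurable.of_discrete.aemeasurable)
          · intro e
            exact Measurable.of_discrete
      _ ≤ _ := by
          apply Finset.sum_le_sum
          intro M _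
          gcongr with e _
          have h1 : ∫⁻ k : E → ℕ, ENNReal.ofReal (s ^ (k e)) ∂μ =
              ∫⁻ j : ℕ, ENNReal.ofReal (s ^ j) ∂(geo (δ * β e)) := by
            rw [hμ]
            exact (measurePreserving_eval (fun e => geo (δ * β e)) e).lintegral_comp
              (f := fun j : ℕ => ENNReal.ofReal (s ^ j)) Measurable.of_discrete
          rw [h1]
          refine (mgf3 (mul_pos hδ (hβ.pos e)) hs0.le hs1).trans (le_of_eq ?_)
          rw [← hδs]
          congr 1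
          ring
  have hreal : (μ A).toReal ≤ (s⁻¹) ^ T * (3 ^ n * ∑ M ∈ P, ∏ e ∈ M, β e) := by
    have hp : ∀ M : Finset E, 0 ≤ ∏ e ∈ M, (3 * β e) := fun M =>
      Finset.prod_nonneg fun e _ => mul_nonneg (by norm_num) (hβ.pos e).le
    have h2 : ∑ M ∈ P, ENNReal.ofReal ((s⁻¹) ^ T) * ∏ e ∈ M, ENNReal.ofReal (3 * β e) =
        ENNReal.ofReal (∑ M ∈ P, (s⁻¹) ^ T * ∏ e ∈ M, (3 * β e)) := by
      rw [ENNReal.ofReal_sum_of_nonneg (fun M _ => mul_nonneg (by positivity) (hp M))]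
      apply Finset.sum_congr rfl
      intro M _
      rw [ENNReal.ofReal_mul (by positivity),
        ENNReal.ofReal_prod_of_nonneg (fun e _ => mul_nonneg (by norm_num) (hβ.pos e).le)]
    rw [h2] at hint
    have h3 := ENNReal.toReal_mono ENNReal.ofReal_ne_top hint
    rw [ENNReal.toReal_ofReal (Finset.sum_nonneg fun M _ => mul_nonneg (by positivity) (hp M))] at h3
    refine h3.trans (le_of_eq ?_)
    rw [Finset.mul_sum, Finset.mul_sum]
    apply Finset.sum_congr rfl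
    intro M hM
    rw [hP, Finset.mem_filter] at hM
    have h1 := card_pm hM.2
    have h2 : M.card = n := by omega
    rw [Finset.prod_mul_distrib, Finset.prod_const, h2]
  rw [← hP, ← hse]
  have h6 : (2 - n / N : ℝ) ≤ 3 * n * (μ A).toReal := by nlinarith
  have h7 : (s ^ (3 * N)) ^ n * (s⁻¹) ^ T = 1 := by
    rw [← pow_mul, hT, show 3 * N * n = 3 * n * N by ring, ← mul_pow, mul_inv_cancel₀ hs0.ne', one_pow]
  have h8 : (0 : ℝ) ≤ (s ^ (3 * N)) ^ n := by positivity
  calc (2 - n / N : ℝ) * (s ^ (3 * N)) ^ n ≤ 3 * n * (μ A).toReal * (s ^ (3 * N)) ^ n := by gcongr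
    _ ≤ 3 * n * ((s⁻¹) ^ T * (3 ^ n * ∑ M ∈ P, ∏ e ∈ M, β e)) * (s ^ (3 * N)) ^ n := by gcongr
    _ = 3 * n * (3 ^ n * ∑ M ∈ P, ∏ e ∈ M, β e) * ((s ^ (3 * N)) ^ n * (s⁻¹) ^ T) := by ring
    _ = _ := by rw [h7, mul_one]

open Classical Filter Topology in
/-- lower bound for the weighted number of perfect matchings -/
theorem haf_lower3 {n : ℕ} (hn1 : 1 ≤ n) (hn : Fintype.card V = 2 * n) {a b : E → V}
    (hl : ∀ e, a e ≠ b e)
    (hcomp : ∀ p q : V, p ≠ q → ∃ e, (a e = p ∧ b e = q) ∨ (a e = q ∧ b e = p))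
    {x0 : E → ℝ} (hx0 : Fr a b x0) {β : E → ℝ} (hβ : Wt a b β) (hex : ∃ M, IsPM a b M)
    {θ : E → ℝ} (hθ : ∀ e, 0 < θ e ∧ θ e < 1)
    (hgen : ∀ (q : E → ℚ) (q0 : ℚ), ∑ e, (q e : ℝ) * θ e + q0 = 0 → q = 0) :
    2 * (Real.exp (-1)) ^ n ≤ 3 * n * (3 ^ n *
      ∑ M ∈ Finset.univ.filter (fun M : Finset E => IsPM a b M), ∏ e ∈ M, β e) := by
  have h1 : Tendsto (fun N : ℕ => (2 - n / N : ℝ)) atTop (𝓝 (2 - 0)) :=
    tendsto_const_nhds.sub (tendsto_const_div_atTop_nhds_zero_nat _)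
  have h2 : Tendsto (fun m : ℕ => (1 + (-1 : ℝ) / m) ^ m) atTop (𝓝 (Real.exp (-1))) :=
    Real.tendsto_one_add_div_pow_exp (-1)
  have h3 : Tendsto (fun N : ℕ => 3 * N) atTop atTop :=
    tendsto_atTop_mono (fun N => by simp only [id]; omega) tendsto_id
  have h4 : Tendsto (fun N : ℕ => (1 - 1 / (3 * N : ℝ)) ^ (3 * N)) atTop (𝓝 (Real.exp (-1))) := by
    refine (h2.comp h3).congr fun N => ?_
    simp only [Function.comp_apply]
    push_cast
    congr 1
    ring
  have h5 := h1.mul (h4.pow n)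
  rw [sub_zero] at h5
  apply le_of_tendsto h5
  filter_upwards [eventually_ge_atTop 1] with N hN
  exact grid hn1 hn hl hcomp hx0 hβ hex hθ hgen hN

end Pool.Agent.Y266.Haf
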