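import Pool.Agent.Y266.Haf.HL

/-!
Newton-type inequalities for the hafnians of a nonnegative symmetric matrix.
-/

set_option autoImplicit false
set_option linter.unusedSectionVars false

namespace Pool.Agent.Y266.Haf

open Polynomial

/-- the inequality of the means for products over subsets -/
theorem amgm_fin {n : ℕ} (x : Fin n → ℝ) (hx : ∀ i, 0 ≤ x i) (k : ℕ) (hk : k ≤ n) :
    (n.choose k : ℝ) ^ n * (∏ i, x i) ^ k ≤
      (∑ t ∈ Finset.powersetCard k Finset.univ, ∏ i ∈ t, x i) ^ n := by
  rcases Nat.eq_zero_or_pos k with h0 | h0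
  · subst h0
    simp
  set N : ℕ := n.choose k with hN
  have hNpos : 0 < N := Nat.choose_pos hk
  have hcard : (Finset.powersetCard k (Finset.univ : Finset (Fin n))).card = N := by
    rw [Finset.card_powersetCard, Finset.card_univ, Fintype.card_fin]
  set S : ℝ := ∑ t ∈ Finset.powersetCard k (Finset.univ : Finset (Fin n)), ∏ i ∈ t, x i with hS
  have hS0 : 0 ≤ S := Finset.sum_nonneg fun t _ => Finset.prod_nonneg fun i _ => hx i
  have hNr : (0 : ℝ) < N := by exact_mod_cast hNpos
  -- the inequality of the means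
  have h1 : ∏ t ∈ Finset.powersetCard k (Finset.univ : Finset (Fin n)), (∏ i ∈ t, x i) ≤
      (S / N) ^ N := by
    have h2 := Real.geom_mean_le_arith_mean_weighted
      (Finset.powersetCard k (Finset.univ : Finset (Fin n))) (fun _ => (1 / N : ℝ))
      (fun t => ∏ i ∈ t, x i) (fun _ _ => by positivity)
      (by rw [Finset.sum_const, hcard, nsmul_eq_mul]; field_simp)
      (fun t _ => Finset.prod_nonneg fun i _ => hx i)
    have h3 : ∏ t ∈ Finset.powersetCard k (Finset.univ : Finset (Fin n)),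
        (∏ i ∈ t, x i) ^ (1 / N : ℝ) =
        (∏ t ∈ Finset.powersetCard k (Finset.univ : Finset (Fin n)), (∏ i ∈ t, x i)) ^ (1 / N : ℝ) := by
      rw [Real.finsetProd_rpow _ _ (fun t _ => Finset.prod_nonneg fun i _ => hx i)]
    rw [h3] at h2
    have h4 : ∑ t ∈ Finset.powersetCard k (Finset.univ : Finset (Fin n)), (1 / N : ℝ) * (∏ i ∈ t, x i) =
        S / N := by
      rw [← Finset.mul_sum, ← hS]; ring
    rw [h4] at h2
    have h5 : 0 ≤ ∏ t ∈ Finset.powersetCard k (Finset.univ : Finset (Fin n)), (∏ i ∈ t, x i) :=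
      Finset.prod_nonneg fun t _ => Finset.prod_nonneg fun i _ => hx i
    calc _ = ((∏ t ∈ Finset.powersetCard k (Finset.univ : Finset (Fin n)), (∏ i ∈ t, x i)) ^ (1 / N : ℝ)) ^ N := by
          rw [← Real.rpow_natCast, ← Real.rpow_mul h5, one_div, inv_mul_cancel₀ hNr.ne', Real.rpow_one]
      _ ≤ _ := pow_le_pow_left₀ (Real.rpow_nonneg h5 _) h2 _
  -- the product of the products
  have h6 : ∏ t ∈ Finset.powersetCard k (Finset.univ : Finset (Fin n)), (∏ i ∈ t, x i) =
      (∏ i, x i) ^ ((n - 1).choose (k - 1)) := by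
    rw [Finset.prod_comm' (t' := Finset.univ)
      (s' := fun i => (Finset.powersetCard k (Finset.univ : Finset (Fin n))).filter (fun t => {i} ⊆ t))
      (by intro t i; simp), ← Finset.prod_pow]
    apply Finset.prod_congr rfl
    intro i _
    rw [Finset.prod_const, Finset.card_filter_powersetCard_subset _ _ _ (Finset.subset_univ _)
      (by rw [Finset.card_singleton]; omega)]
    simp
  have h7 : k * N = n * (n - 1).choose (k - 1) := by
    obtain ⟨m, rfl⟩ : ∃ m, n = m + 1 := ⟨n - 1, by omega⟩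
    obtain ⟨l, rfl⟩ : ∃ l, k = l + 1 := ⟨k - 1, by omega⟩
    have := Nat.add_one_mul_choose_eq m l
    rw [hN]
    simp only [Nat.add_sub_cancel]
    rw [this]; ring
  have hP : 0 ≤ ∏ i, x i := Finset.prod_nonneg fun i _ => hx i
  have h8 : ((∏ i, x i) ^ k) ^ N ≤ ((S / N) ^ n) ^ N := by
    calc ((∏ i, x i) ^ k) ^ N = ((∏ i, x i) ^ ((n - 1).choose (k - 1))) ^ n := by
          rw [← pow_mul, h7, ← pow_mul, mul_comm]
      _ ≤ ((S / N) ^ N) ^ n := by
          rw [← h6]
          exact pow_le_pow_left₀ (Finset.prod_nonneg fun t _ => Finset.prod_nonneg fun i _ => hx i) h1 _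
      _ = _ := by rw [← pow_mul, ← pow_mul, mul_comm]
  have h9 : (∏ i, x i) ^ k ≤ (S / N) ^ n :=
    le_of_pow_le_pow_left₀ hNpos.ne' (by positivity) h8
  calc (N : ℝ) ^ n * (∏ i, x i) ^ k ≤ (N : ℝ) ^ n * (S / N) ^ n :=
        mul_le_mul_of_nonneg_left h9 (by positivity)
    _ = S ^ n := by rw [← mul_pow]; congr 1; field_simp

/-- Maclaurin's inequality against the full product -/
theorem amgm (s : Multiset ℝ) (hs : ∀ x ∈ s, 0 ≤ x) {n : ℕ} (hn : Multiset.card s = n) (k : ℕ)
    (hk : k ≤ n) : (n.choose k : ℝ) ^ n * s.prod ^ k ≤ (s.esymm k) ^ n := by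
  subst hn
  obtain ⟨l, rfl⟩ : ∃ l : List ℝ, s = (l : Multiset ℝ) := ⟨s.toList, s.coe_toList.symm⟩
  have h1 : (l : Multiset ℝ) = (Finset.univ : Finset (Fin l.length)).val.map (fun i => l.get i) := by
    rw [Fin.univ_val_map]
    simp
  have h2 := amgm_fin (fun i : Fin l.length => l.get i) (fun i => hs _ (by simp)) k (by simpa using hk)
  have h3 : (l : Multiset ℝ).prod = ∏ i : Fin l.length, l.get i := by
    conv_lhs => rw [h1]
    rfl
  have h4 : (l : Multiset ℝ).esymm k =
      ∑ t ∈ Finset.powersetCard k (Finset.univ : Finset (Fin l.length)), ∏ i ∈ t, l.get i := by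
    conv_lhs => rw [h1]
    rw [Finset.esymm_map_val]
  rw [h3, h4, Multiset.coe_card]
  exact h2

/-- square roots with positive real part -/
theorem exists_sqrt {t : ℂ} (ht : t ∈ Complex.slitPlane) : ∃ z : ℂ, 0 < z.re ∧ z ^ 2 = t := by
  rw [Complex.mem_slitPlane_iff_arg] at ht
  refine ⟨Complex.exp (Complex.log t / 2), ?_, ?_⟩
  · rw [Complex.exp_re]
    apply mul_pos (Real.exp_pos _)
    have h1 : (Complex.log t / 2).im = t.arg / 2 := by
      rw [show Complex.log t / 2 = Complex.log t / (2 : ℝ) by norm_num, Complex.div_ofReal_im,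
        Complex.log_im]
    rw [h1]
    apply Real.cos_pos_of_mem_Ioo
    have h2 := Complex.arg_le_pi t
    have h3 := Complex.neg_pi_lt_arg t
    have h4 : t.arg < Real.pi := lt_of_le_of_ne h2 ht.1
    constructor <;> linarith
  · rw [← Complex.exp_nat_mul]
    rw [show ((2 : ℕ) : ℂ) * (Complex.log t / 2) = Complex.log t by push_cast; ring]
    exact Complex.exp_log ht.2

section
variable {V : Type} [Fintype V] [DecidableEq V]

theorem hk_nonneg (k : ℕ) (B : Matrix V V ℝ) : 0 ≤ hk k B :=
  Finset.sum_nonneg fun _ _ => wi_nonneg _ _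

theorem hk_zero (B : Matrix V V ℝ) : hk 0 B = 1 := by
  have h : kM V 0 = {id} := by
    ext f
    unfold kM
    rw [Finset.mem_filter, Finset.mem_singleton]
    constructor
    · rintro ⟨_, _, h⟩
      rw [mul_zero, Finset.card_eq_zero] at h
      funext v
      by_contra h1
      have : v ∈ Finset.univ.filter (fun v => f v ≠ v) := by
        rw [Finset.mem_filter]; exact ⟨Finset.mem_univ _, h1⟩
      rw [h] at this
      exact absurd this (Finset.notMem_empty v)
    · rintro rfl
      simp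
  unfold hk
  rw [h, Finset.sum_singleton]
  unfold wi
  simp

/-- the polynomial of the hafnians -/
noncomputable def QQ (n : ℕ) (B : Matrix V V ℝ) : ℝ[X] :=
  ∑ k ∈ Finset.range (n + 1), C (hk k B) * X ^ k

theorem QQ_coeff (n : ℕ) (B : Matrix V V ℝ) {k : ℕ} (hk' : k ≤ n) : (QQ n B).coeff k = hk k B := by
  unfold QQ
  rw [finsetSum_coeff]
  simp only [coeff_C_mul_X_pow]
  rw [Finset.sum_ite_eq]
  rw [if_pos (Finset.mem_range.2 (by omega))]

theorem QQ_natDegree_le (n : ℕ) (B : Matrix V V ℝ) : (QQ n B).natDegree ≤ n := by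
  unfold QQ
  apply natDegree_sum_le_of_forall_le
  intro k hk'
  rw [Finset.mem_range] at hk'
  exact (natDegree_C_mul_X_pow_le _ _).trans (by omega)

theorem newton {n : ℕ} (hV : Fintype.card V = 2 * n) {B : Matrix V V ℝ}
    (hB : ∀ i j, B i j = B j i) (hB0 : ∀ i j, 0 ≤ B i j) (k : ℕ) (hk' : k ≤ n) :
    (n.choose k : ℝ) ^ n * (hk n B) ^ k ≤ (hk k B) ^ n := by
  rcases eq_or_lt_of_le (hk_nonneg n B) with ha | ha
  · rcases Nat.eq_zero_or_pos k with h0 | h0
    · subst h0
      rw [hk_zero]; simp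
    · rw [← ha, zero_pow h0.ne', mul_zero]
      exact pow_nonneg (hk_nonneg _ _) _
  -- degree
  have hdeg : (QQ n B).natDegree = n := by
    apply le_antisymm (QQ_natDegree_le n B)
    apply le_natDegree_of_ne_zero
    rw [QQ_coeff n B le_rfl]
    exact ha.ne'
  have hlead : (QQ n B).leadingCoeff = hk n B := by
    unfold leadingCoeff
    rw [hdeg, QQ_coeff n B le_rfl]
  have hQ0 : QQ n B ≠ 0 := by
    rw [← leadingCoeff_ne_zero, hlead]; exact ha.ne'
  set Qc : ℂ[X] := (QQ n B).map (algebraMap ℝ ℂ) with hQc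
  have hQc0 : Qc ≠ 0 := (Polynomial.map_ne_zero_iff (algebraMap ℝ ℂ).injective).2 hQ0
  have hroot : ∀ t ∈ Qc.roots, (((t.re : ℝ) : ℂ) = t) ∧ t.re ≤ 0 := by
    intro t ht
    have h1 : Qc.eval t = 0 := (mem_roots hQc0).1 ht
    by_contra hcon
    have h2 : t ∈ Complex.slitPlane := by
      by_contra h3
      rw [Complex.mem_slitPlane_iff] at h3
      push Not at h3
      apply hcon
      exact ⟨by apply Complex.ext <;> simp [h3.2], h3.1⟩
    obtain ⟨z, hz, hzt⟩ := exists_sqrt h2
    have h4 := (FS_ne hB hB0 hz _ Finset.univ rfl).1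
    apply h4
    rw [FS_univ hV, hzt]
    rw [hQc] at h1
    unfold QQ at h1
    simp only [Polynomial.map_sum, Polynomial.map_mul, Polynomial.map_C, Polynomial.map_pow,
      Polynomial.map_X, eval_finsetSum, eval_mul, eval_C, eval_pow, eval_X] at h1
    exact h1
  have hdegc : Qc.natDegree = n := by
    rw [hQc, natDegree_map_eq_of_injective (algebraMap ℝ ℂ).injective, hdeg]
  have hcardr : Multiset.card Qc.roots = n := by
    rw [IsAlgClosed.card_roots_eq_natDegree, hdegc]
  have hleadc : Qc.leadingCoeff = ((hk n B : ℝ) : ℂ) := by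
    rw [hQc, leadingCoeff_map_of_injective (algebraMap ℝ ℂ).injective, hlead]
    rfl
  set s : Multiset ℝ := Qc.roots.map (fun r => -r.re) with hs
  have hscard : Multiset.card s = n := by rw [hs, Multiset.card_map, hcardr]
  have hs0 : ∀ x ∈ s, 0 ≤ x := by
    intro x hx
    rw [hs, Multiset.mem_map] at hx
    obtain ⟨r, hr, rfl⟩ := hx
    linarith [(hroot r hr).2]
  have hfac : QQ n B = C (hk n B) * (s.map (fun r => X + C r)).prod := by
    apply Polynomial.map_injective (algebraMap ℝ ℂ) (algebraMap ℝ ℂ).injective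
    rw [← hQc, (IsAlgClosed.splits Qc).eq_prod_roots, hleadc, Polynomial.map_mul, Polynomial.map_C,
      Polynomial.map_multiset_prod, hs, Multiset.map_map, Multiset.map_map]
    congr 2
    apply Multiset.map_congr rfl
    intro r hr
    simp only [Function.comp_apply, Polynomial.map_add, Polynomial.map_X, Polynomial.map_C]
    have h1 := (hroot r hr).1
    rw [sub_eq_add_neg, ← C_neg]
    congr 2
    rw [← h1]
    simp
  have hcoef : ∀ j, j ≤ n → hk j B = hk n B * s.esymm (n - j) := by
    intro j hj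
    rw [← QQ_coeff n B hj]
    conv_lhs => rw [hfac]
    rw [coeff_C_mul, Multiset.prod_X_add_C_coeff s (by rw [hscard]; exact hj), hscard]
  have hone : hk n B * s.prod = 1 := by
    have h1 := hcoef 0 (Nat.zero_le _)
    rw [hk_zero, Nat.sub_zero] at h1
    have h2 : s.esymm n = s.prod := by
      unfold Multiset.esymm
      rw [← hscard, Multiset.powersetCard_self]
      simp
    rw [← h2, ← h1]
  have hmac := amgm s hs0 hscard (n - k) (Nat.sub_le _ _)
  rw [Nat.choose_symm hk'] at hmac
  calc (n.choose k : ℝ) ^ n * (hk n B) ^ k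
      = (n.choose k : ℝ) ^ n * ((hk n B) ^ k * (hk n B * s.prod) ^ (n - k)) := by
        rw [hone, one_pow, mul_one]
    _ = ((n.choose k : ℝ) ^ n * s.prod ^ (n - k)) * (hk n B) ^ n := by
        rw [mul_pow]
        have : (hk n B) ^ n = (hk n B) ^ k * (hk n B) ^ (n - k) := by
          rw [← pow_add]; congr 1; omega
        rw [this]; ring
    _ ≤ (s.esymm (n - k)) ^ n * (hk n B) ^ n :=
        mul_le_mul_of_nonneg_right hmac (pow_nonneg (hk_nonneg _ _) _)
    _ = (hk k B) ^ n := by rw [← mul_pow, hcoef k hk']; congr 1; ring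

end

end Pool.Agent.Y266.Haf
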