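import Pool.Agent.Y266.Haf.Hs

/-!
The bound for arbitrary index types, and the tensor power trick: the hafnian of a point of the
perfect matching polytope is at least `(3 e) ^ (-n)`.
-/

set_option autoImplicit false
set_option linter.unusedSectionVars false

namespace Pool.Agent.Y266.Haf

open Pool.Agent.H249R2.PM

section
variable {V W : Type} [Fintype V] [DecidableEq V] [Fintype W] [DecidableEq W]

/-- relabelling -/
def rel (e : V ≃ W) : Matrix V V ℝ →ₗ[ℝ] Matrix W W ℝ where
  toFun B := Matrix.of fun i j => B (e.symm i) (e.symm j)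
  map_add' _ _ := rfl
  map_smul' _ _ := rfl

theorem rel_apply (e : V ≃ W) (B : Matrix V V ℝ) (i j : W) :
    rel e B i j = B (e.symm i) (e.symm j) := rfl

theorem wi_rel (e : V ≃ W) (B : Matrix V V ℝ) (f : V → V) :
    wi (rel e B) (fun w => e (f (e.symm w))) = wi B f := by
  unfold wi
  apply Finset.prod_nbij' (fun w => e.symm w) (fun v => e v)
  · intro w hw
    simp only [Finset.mem_filter, Finset.mem_univ, true_and] at hw ⊢
    intro h
    apply hw
    rw [h, Equiv.apply_symm_apply]
  · intro v hv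
    simp only [Finset.mem_filter, Finset.mem_univ, true_and] at hv ⊢
    intro h
    apply hv
    rw [Equiv.symm_apply_apply] at h
    exact e.injective h
  · intro w _; simp
  · intro v _; simp
  · intro w _
    rw [rel_apply]
    dsimp only
    rw [Equiv.symm_apply_apply]

theorem hk_rel (e : V ≃ W) (k : ℕ) (B : Matrix V V ℝ) : hk k (rel e B) = hk k B := by
  unfold hk
  symm
  apply Finset.sum_nbij' (fun f w => e (f (e.symm w))) (fun g v => e.symm (g (e v)))
  · intro f hf
    unfold kM at hf ⊢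
    simp only [Finset.mem_filter, Finset.mem_univ, true_and] at hf ⊢
    refine ⟨fun w => by simp [hf.1], ?_⟩
    rw [← hf.2]
    apply Finset.card_nbij' (fun w => e.symm w) (fun v => e v)
    · intro w hw
      simp only [Finset.coe_filter, Finset.mem_univ, true_and, Set.mem_ofPred_eq] at hw ⊢
      intro h
      apply hw
      rw [h, Equiv.apply_symm_apply]
    · intro v hv
      simp only [Finset.coe_filter, Finset.mem_univ, true_and, Set.mem_ofPred_eq] at hv ⊢
      intro h
      apply hv
      rw [Equiv.symm_apply_apply] at h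
      exact e.injective h
    · intro w _; simp
    · intro v _; simp
  · intro g hg
    unfold kM at hg ⊢
    simp only [Finset.mem_filter, Finset.mem_univ, true_and] at hg ⊢
    refine ⟨fun w => by simp [hg.1], ?_⟩
    rw [← hg.2]
    apply Finset.card_nbij' (fun v => e v) (fun w => e.symm w)
    · intro v hv
      simp only [Finset.coe_filter, Finset.mem_univ, true_and, Set.mem_ofPred_eq] at hv ⊢
      intro h
      apply hv
      rw [h, Equiv.symm_apply_apply]
    · intro w hw
      simp only [Finset.coe_filter, Finset.mem_univ, true_and, Set.mem_ofPred_eq] at hw ⊢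
      intro h
      apply hw
      rw [Equiv.apply_symm_apply] at h
      exact e.symm.injective h
    · intro v _; simp
    · intro w _; simp
  · intro f _; funext v; simp
  · intro g _; funext w; simp
  · intro f _
    exact (wi_rel e B f).symm

theorem rel_hull (e : V ≃ W) {B : Matrix V V ℝ} (hB : B ∈ convexHull ℝ (Gv V)) :
    rel e B ∈ convexHull ℝ (Gv W) := by
  have h1 : rel e B ∈ (rel e) '' (convexHull ℝ (Gv V)) := ⟨B, hB, rfl⟩
  rw [(rel e).image_convexHull] at h1
  refine convexHull_mono ?_ h1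
  rintro _ ⟨M, ⟨f, hf, rfl⟩, rfl⟩
  refine ⟨fun w => e (f (e.symm w)), fun w => ⟨?_, ?_⟩, ?_⟩
  · intro h
    replace h : e (f (e.symm w)) = w := h
    apply (hf (e.symm w)).1
    apply e.injective
    rw [h, Equiv.apply_symm_apply]
  · simp [(hf _).2]
  · ext i j
    rw [rel_apply, Matrix.of_apply, Matrix.of_apply]
    congr 1
    apply propext
    rw [← Equiv.eq_symm_apply]

theorem hull_gen {n : ℕ} (hn : 1 ≤ n) (hV : Fintype.card V = 2 * n) {B : Matrix V V ℝ}
    (hB : B ∈ convexHull ℝ (Gv V)) :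
    2 * (Real.exp (-1)) ^ n ≤ 3 * n * (3 ^ n * hk n B) := by
  obtain ⟨e⟩ : Nonempty (V ≃ VV n) := by
    rw [← Fintype.card_eq, hV]; simp [mul_comm]
  rw [← hk_rel e]
  exact hull_VV hn (rel_hull e hB)

/-- direct sum of `m` copies -/
def ten (m : ℕ) : Matrix V V ℝ →ₗ[ℝ] Matrix (V × Fin m) (V × Fin m) ℝ where
  toFun B := Matrix.of fun p q => if p.2 = q.2 then B p.1 q.1 else 0
  map_add' A B := by
    ext p q
    simp only [Matrix.of_apply, Matrix.add_apply]
    split_ifs <;> simp
  map_smul' c B := by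
    ext p q
    simp only [Matrix.of_apply, Matrix.smul_apply, smul_eq_mul, RingHom.id_apply]
    split_ifs <;> simp

theorem ten_apply (m : ℕ) (B : Matrix V V ℝ) (p q : V × Fin m) :
    ten m B p q = if p.2 = q.2 then B p.1 q.1 else 0 := rfl

theorem ten_hull (m : ℕ) {B : Matrix V V ℝ} (hB : B ∈ convexHull ℝ (Gv V)) :
    ten m B ∈ convexHull ℝ (Gv (V × Fin m)) := by
  have h1 : ten m B ∈ (ten m) '' (convexHull ℝ (Gv V)) := ⟨B, hB, rfl⟩
  rw [(ten m).image_convexHull] at h1
  refine convexHull_mono ?_ h1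
  rintro _ ⟨M, ⟨f, hf, rfl⟩, rfl⟩
  refine ⟨fun p => (f p.1, p.2), fun p => ⟨?_, ?_⟩, ?_⟩
  · intro h
    exact (hf p.1).1 (congrArg Prod.fst h)
  · ext
    · exact (hf p.1).2
    · rfl
  · ext p q
    obtain ⟨v, i⟩ := p
    obtain ⟨w, j⟩ := q
    rw [ten_apply, Matrix.of_apply, Matrix.of_apply]
    dsimp only
    by_cases h1 : i = j
    · by_cases h2 : f v = w
      · rw [if_pos h1, if_pos h2, if_pos (by rw [h1, h2])]
      · rw [if_pos h1, if_neg h2, if_neg (fun h => h2 (Prod.mk.inj h).1)]
    · rw [if_neg h1, if_neg (fun h => h1 (Prod.mk.inj h).2)]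

theorem hk_ten {n : ℕ} (hV : Fintype.card V = 2 * n) (m : ℕ) (B : Matrix V V ℝ) :
    hk (n * m) (ten m B) ≤ (hk n B) ^ m := by
  classical
  have hVm : Fintype.card (V × Fin m) = 2 * (n * m) := by
    rw [Fintype.card_prod, hV, Fintype.card_fin]; ring
  have hpow : (hk n B) ^ m = ∑ φ ∈ Fintype.piFinset (fun _ : Fin m => kM V n), ∏ i, wi B (φ i) := by
    rw [← Finset.prod_univ_sum]
    simp [hk]
  rw [hpow]
  unfold hk
  rw [← Finset.sum_filter_add_sum_filter_not (kM (V × Fin m) (n * m)) (fun F => ∀ p, (F p).2 = p.2)]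
  have h0 : ∑ F ∈ (kM (V × Fin m) (n * m)).filter (fun F => ¬ ∀ p, (F p).2 = p.2),
      wi (ten m B) F = 0 := by
    apply Finset.sum_eq_zero
    intro F hF
    rw [Finset.mem_filter] at hF
    obtain ⟨hF1, hF2⟩ := hF
    push Not at hF2
    obtain ⟨p, hp⟩ := hF2
    unfold wi
    apply Finset.prod_eq_zero (i := p)
    · simp only [Finset.mem_filter, Finset.mem_univ, true_and]
      intro h
      exact hp (by rw [h])
    · have : ten m B p (F p) = 0 := by
        rw [ten_apply, if_neg (fun h => hp h.symm)]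
      rw [this, Real.sqrt_zero]
  rw [h0, add_zero]
  let Φ : (V × Fin m → V × Fin m) → (Fin m → V → V) := fun F i v => (F (v, i)).1
  have hΦ : ∀ F ∈ (kM (V × Fin m) (n * m)).filter (fun F => ∀ p, (F p).2 = p.2),
      (∀ v i, F (v, i) = (Φ F i v, i)) ∧ ∀ i v, Φ F i v ≠ v ∧ Φ F i (Φ F i v) = v := by
    intro F hF
    rw [Finset.mem_filter] at hF
    obtain ⟨hF1, hF2⟩ := hF
    have hF3 := (mem_kM_top hVm).1 hF1
    have h1 : ∀ v i, F (v, i) = (Φ F i v, i) := fun v i => Prod.ext rfl (hF2 (v, i))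
    refine ⟨h1, fun i v => ⟨?_, ?_⟩⟩
    · intro h
      apply (hF3 (v, i)).1
      rw [h1, h]
    · have h2 := (hF3 (v, i)).2
      rw [h1, h1] at h2
      exact congrArg Prod.fst h2
  have hinj : Set.InjOn Φ ((kM (V × Fin m) (n * m)).filter (fun F => ∀ p, (F p).2 = p.2) :
      Finset (V × Fin m → V × Fin m)) := by
    intro F hF G hG h
    funext p
    obtain ⟨v, i⟩ := p
    rw [(hΦ F hF).1, (hΦ G hG).1, h]
  calc ∑ F ∈ (kM (V × Fin m) (n * m)).filter (fun F => ∀ p, (F p).2 = p.2), wi (ten m B) F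
      = ∑ F ∈ (kM (V × Fin m) (n * m)).filter (fun F => ∀ p, (F p).2 = p.2),
          ∏ i, wi B (Φ F i) := by
        apply Finset.sum_congr rfl
        intro F hF
        obtain ⟨h1, h2⟩ := hΦ F hF
        unfold wi
        rw [Finset.filter_true_of_mem (s := Finset.univ) (p := fun v => F v ≠ v) (fun p _ => by
          obtain ⟨v, i⟩ := p
          rw [h1]
          intro h
          exact (h2 i v).1 (congrArg Prod.fst h))]
        rw [← Finset.univ_product_univ, Finset.prod_product_right]
        apply Finset.prod_congr rfl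
        intro i _
        rw [Finset.filter_true_of_mem (fun v _ => (h2 i v).1)]
        apply Finset.prod_congr rfl
        intro v _
        rw [h1, ten_apply, if_pos rfl]
    _ = ∑ φ ∈ ((kM (V × Fin m) (n * m)).filter (fun F => ∀ p, (F p).2 = p.2)).image Φ,
          ∏ i, wi B (φ i) := by
        rw [Finset.sum_image hinj]
    _ ≤ ∑ φ ∈ Fintype.piFinset (fun _ : Fin m => kM V n), ∏ i, wi B (φ i) := by
        apply Finset.sum_le_sum_of_subset_of_nonneg
        · intro φ hφ
          rw [Finset.mem_image] at hφ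
          obtain ⟨F, hF, rfl⟩ := hφ
          rw [Fintype.mem_piFinset]
          intro i
          exact (mem_kM_top hV).2 ((hΦ F hF).2 i)
        · intro φ _ _
          exact Finset.prod_nonneg fun i _ => wi_nonneg B _

open Filter Topology in
/-- the hafnian on the perfect matching polytope -/
theorem hull_sharp {n : ℕ} (hn : 1 ≤ n) (hV : Fintype.card V = 2 * n) {B : Matrix V V ℝ}
    (hB : B ∈ convexHull ℝ (Gv V)) : 1 ≤ (3 * Real.exp 1) ^ n * hk n B := by
  have hk0 : 0 ≤ hk n B := Finset.sum_nonneg fun f _ => wi_nonneg B f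
  obtain ⟨q, hq⟩ : ∃ q, q = (3 * Real.exp 1) ^ n * hk n B := ⟨_, rfl⟩
  have hq0 : 0 ≤ q := by rw [hq]; positivity
  rw [← hq]
  by_contra hcon
  push Not at hcon
  have h1 : ∀ m : ℕ, 1 ≤ m → 2 ≤ 3 * n * (m * q ^ m) := by
    intro m hm
    have hVm : Fintype.card (V × Fin m) = 2 * (n * m) := by
      rw [Fintype.card_prod, hV, Fintype.card_fin]; ring
    have h2 := hull_gen (V := V × Fin m) (n := n * m) (Nat.mul_pos hn hm) hVm (ten_hull m hB)
    have h3 := hk_ten hV m B
    have h4 : 2 * (Real.exp (-1)) ^ (n * m) ≤ 3 * (n * m : ℕ) * (3 ^ (n * m) * (hk n B) ^ m) := by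
      refine h2.trans ?_
      gcongr
    have h5 : (Real.exp 1) ^ (n * m) * (Real.exp (-1)) ^ (n * m) = 1 := by
      rw [← mul_pow, ← Real.exp_add]; simp
    have h6 := mul_le_mul_of_nonneg_left h4 (show 0 ≤ (Real.exp 1) ^ (n * m) by positivity)
    have h7 : (Real.exp 1) ^ (n * m) * (2 * (Real.exp (-1)) ^ (n * m)) = 2 := by
      rw [mul_left_comm, h5, mul_one]
    rw [h7] at h6
    refine h6.trans (le_of_eq ?_)
    rw [hq, mul_pow ((3 * Real.exp 1) ^ n), ← pow_mul, mul_pow 3]
    push_cast
    ring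
  have h2 : Tendsto (fun m : ℕ => 3 * (n : ℝ) * (m * q ^ m)) atTop (𝓝 (3 * n * 0)) :=
    (tendsto_self_mul_const_pow_of_lt_one hq0 hcon).const_mul _
  rw [mul_zero] at h2
  have h3 : (2 : ℝ) ≤ 0 := by
    apply ge_of_tendsto h2
    filter_upwards [eventually_ge_atTop 1] with m hm using h1 m hm
  linarith

end

end Pool.Agent.Y266.Haf
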